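import Mathlib

/-!
# Non-Tukey-top ultrafilters with a Tukey-top Fubini product: definitions and tasks (MP_0d317a_lc)
-/

set_option autoImplicit false

namespace Pool.Agent.H282R3.FP

open Set

/-- `W` is a well-order of type `ω₁`. -/
structure OmegaOneLike (W : Type) [LinearOrder W] : Prop where
  wf : WellFoundedLT W
  countable : ∀ w : W, (Iio w).Countable
  bdd : ∀ S : Set W, S.Countable → ∃ w, ∀ x ∈ S, x < w

section

variable {W : Type} [LinearOrder W]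

/-- `l` is a limit point of `E`. -/
def IsLim (E : Set W) (l : W) : Prop :=
  (∃ g, g < l) ∧ ∀ g < l, ∃ x ∈ E, g < x ∧ x < l

/-- All limit points `l` of `E` satisfy `s l = b`. -/
def Small (b : Bool) (s : W → Bool) (E : Set W) : Prop := ∀ l, IsLim E l → s l = b

/-- `A` works off `E` (for the sets `C x`, `x < d`). -/
def Works (C : W → Set ℕ) (d : W) (E : Set W) (A : Set ℕ) : Prop :=
  ∀ t : Finset W, (∀ x ∈ t, x < d ∧ x ∉ E) → (A ∩ ⋂ x ∈ t, C x).Infinite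

end

/-- Conditions. There are two sides `b = false, true` (one for each of the two ultrafilters).
`C b x` (`x < d`): sets which will not be in the ultrafilter; `Y b`: a countable record of sets;
`(A b n, E b n)`: the columns; `A b n` works off `E b n`. -/
structure Cond (W : Type) [LinearOrder W] where
  d : W
  s : W → Bool
  C : Bool → W → Set ℕ
  Y : Bool → Set (Set ℕ)
  A : Bool → ℕ → Set ℕ
  E : Bool → ℕ → Set W
  hY : ∀ b, (Y b).Countable
  hA : ∀ b n, A b n ∈ Y b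
  hE : ∀ b n, E b n ⊆ Iio d
  hs : ∀ b n, Small b s (E b n)
  hw : ∀ b n, Works (C b) d (E b n) (A b n)
  hC : ∀ b, ∀ x < d, ∃ N, ∀ n ≥ N, (A b n ∩ C b x).Finite

variable {W : Type} [LinearOrder W]

/-- The column `c'` extends the column `c`, which is below `d`. -/
def Ext (d : W) (c' c : Set ℕ × Set W) : Prop := (c'.1 \ c.1).Finite ∧ c'.2 ∩ Iio d = c.2

/-- The `n`-th column. -/
def Cond.col (p : Cond W) (b : Bool) (n : ℕ) : Set ℕ × Set W := (p.A b n, p.E b n)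

theorem Ext.trans {d e : W} {a b c : Set ℕ × Set W} (hde : d ≤ e) (h1 : Ext e a b)
    (h2 : Ext d b c) : Ext d a c := by
  refine ⟨(h1.1.union h2.1).subset ?_, ?_⟩
  · intro x hx
    by_cases hb : x ∈ b.1
    · exact Or.inr ⟨hb, hx.2⟩
    · exact Or.inl ⟨hx.1, hb⟩
  · rw [← h2.2, ← h1.2, inter_assoc]
    congr 1
    ext x
    simp only [mem_Iio, mem_inter_iff]
    exact ⟨fun h => ⟨h.trans_le hde, h⟩, fun h => h.2⟩

/-- `q ≤ p`: `q` is stronger than `p`. -/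
instance : Preorder (Cond W) where
  le q p := p.d ≤ q.d ∧ (∀ x ≤ p.d, q.s x = p.s x) ∧ (∀ b, ∀ x < p.d, q.C b x = p.C b x) ∧
    (∀ b, p.Y b ⊆ q.Y b) ∧
    (∀ b, ∀ A ∈ p.Y b, ∀ E, Works (p.C b) p.d E A → Works (q.C b) q.d E A) ∧
    (∀ b k, ∃ N, ∀ m ≥ N, ∃ n ≥ k, Ext p.d (q.col b m) (p.col b n))
  le_refl p := ⟨le_rfl, fun _ _ => rfl, fun _ _ _ => rfl, fun _ => Subset.rfl,
    fun _ _ _ _ h => h, fun b k => ⟨k, fun m hm => ⟨m, hm, by
      refine ⟨by simp, ?_⟩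
      exact inter_eq_left.2 (p.hE b m)⟩⟩⟩
  le_trans r q p hrq hqp := by
    obtain ⟨h1, h2, h3, h4, h5, h6⟩ := hrq
    obtain ⟨k1, k2, k3, k4, k5, k6⟩ := hqp
    refine ⟨k1.trans h1, fun x hx => (h2 x (hx.trans k1)).trans (k2 x hx),
      fun b x hx => (h3 b x (hx.trans_le k1)).trans (k3 b x hx),
      fun b => (k4 b).trans (h4 b), fun b A hA E hE => h5 b A (k4 b hA) E (k5 b A hA E hE), ?_⟩
    intro b k
    obtain ⟨N1, hN1⟩ := k6 b k
    obtain ⟨N2, hN2⟩ := h6 b N1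
    refine ⟨N2, fun m hm => ?_⟩
    obtain ⟨n', hn', e1⟩ := hN2 m hm
    obtain ⟨n, hn, e2⟩ := hN1 n' hn'
    exact ⟨n, hn, e1.trans k1 e2⟩

theorem Cond.le_def {q p : Cond W} : q ≤ p ↔ p.d ≤ q.d ∧ (∀ x ≤ p.d, q.s x = p.s x) ∧
    (∀ b, ∀ x < p.d, q.C b x = p.C b x) ∧ (∀ b, p.Y b ⊆ q.Y b) ∧
    (∀ b, ∀ A ∈ p.Y b, ∀ E, Works (p.C b) p.d E A → Works (q.C b) q.d E A) ∧
    (∀ b k, ∃ N, ∀ m ≥ N, ∃ n ≥ k, Ext p.d (q.col b m) (p.col b n)) := Iff.rfl

/-- The sets which `p` puts into the ultrafilter of the side `b`. -/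
def F (b : Bool) (p : Cond W) : Set (Set ℕ) := {B | ∃ N, ∀ n ≥ N, (p.A b n \ B).Finite}

/-- `c` is a (recorded) column of the side `b` at `p`. -/
def ColOK (b : Bool) (p : Cond W) (c : Set ℕ × Set W) : Prop :=
  c.1 ∈ p.Y b ∧ c.2 ⊆ Iio p.d ∧ Small b p.s c.2 ∧ Works (p.C b) p.d c.2 c.1

theorem Cond.colOK (p : Cond W) (b : Bool) (n : ℕ) : ColOK b p (p.col b n) :=
  ⟨p.hA b n, p.hE b n, p.hs b n, p.hw b n⟩

/-- Columns are preserved. -/
theorem ColOK.carry {b : Bool} {q p : Cond W} {c : Set ℕ × Set W} (h : ColOK b p c)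
    (hqp : q ≤ p) : ColOK b q c ∧ Ext p.d c c := by
  obtain ⟨h1, h2, h3, h4⟩ := h
  obtain ⟨k1, k2, k3, k4, k5, k6⟩ := hqp
  refine ⟨⟨k4 b h1, fun x hx => mem_Iio.2 ((mem_Iio.1 (h2 hx)).trans_le k1), ?_,
    k5 b _ h1 _ h4⟩, by simp, inter_eq_left.2 h2⟩
  intro l hl
  have hle : l ≤ p.d := by
    by_contra hcon
    push Not at hcon
    obtain ⟨x, hx, hx1, _⟩ := hl.2 _ hcon
    exact absurd (mem_Iio.1 (h2 hx)) (not_lt.2 hx1.le)
  rw [k2 l hle]
  exact h3 l hl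

theorem F_mono {b : Bool} {q p : Cond W} (hqp : q ≤ p) : F b p ⊆ F b q := by
  rintro B ⟨N, hN⟩
  obtain ⟨M, hM⟩ := hqp.2.2.2.2.2 b N
  refine ⟨M, fun m hm => ?_⟩
  obtain ⟨n, hn, h1, _⟩ := hM m hm
  refine (h1.union (hN n hn)).subset ?_
  intro x hx
  by_cases h : x ∈ (p.col b n).1
  · exact Or.inr ⟨h, hx.2⟩
  · exact Or.inl ⟨hx.1, h⟩

/-- A name for an `ω₁`-sequence of members of the ultrafilter of the side `b`; `v p β B` means
that `p` forces the `β`-th set to be `B`. -/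
structure Name (W : Type) [LinearOrder W] (b : Bool) where
  v : Cond W → W → Set ℕ → Prop
  mono : ∀ p q β B, q ≤ p → v p β B → v q β B
  fn : ∀ p β B B', v p β B → v p β B' → B = B'
  tot : ∀ p β, ∃ q ≤ p, ∃ B, v q β B
  mem : ∀ p β B, v p β B → ∃ q ≤ p, B ∈ F b q

/-- `k` columns `σ j` at `p` and the finite set `G` are good: for uncountably many `β` some
`r ≤ p` decides the `β`-th set to be some `B ⊇ G` and has columns inside `B` extending `σ j`. -/
def Good {b : Bool} (τ : Name W b) (p : Cond W) (k : ℕ) (σ : ℕ → Set ℕ × Set W)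
    (G : Finset ℕ) : Prop :=
  ¬ {β : W | ∃ r ≤ p, ∃ B, τ.v r β B ∧ (↑G : Set ℕ) ⊆ B ∧ ∃ σ' : ℕ → Set ℕ × Set W,
      ∀ j < k, ColOK b r (σ' j) ∧ (σ' j).1 ⊆ B ∧ Ext p.d (σ' j) (σ j)}.Countable

def VeryGood {b : Bool} (τ : Name W b) (p : Cond W) (k : ℕ) (σ : ℕ → Set ℕ × Set W)
    (G : Finset ℕ) : Prop :=
  ∀ q ≤ p, ∀ σ' : ℕ → Set ℕ × Set W,
    (∀ j < k, ColOK b q (σ' j) ∧ Ext p.d (σ' j) (σ j)) → Good τ q k σ' G

theorem Good.weaken {b : Bool} {τ : Name W b} {q p : Cond W} {k k' : ℕ}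
    {σ σ' : ℕ → Set ℕ × Set W} {G G' : Finset ℕ} (h : Good τ q k' σ' G') (hqp : q ≤ p)
    (hk : k ≤ k') (hG : G ⊆ G') (hσ : ∀ j < k, Ext p.d (σ' j) (σ j)) : Good τ p k σ G := by
  intro hc
  refine h (hc.mono ?_)
  rintro β ⟨r, hr, B, h1, h2, τ', h3⟩
  refine ⟨r, hr.trans hqp, B, h1, (Finset.coe_subset.2 hG).trans h2, τ', fun j hj => ?_⟩
  obtain ⟨h4, h5, h6⟩ := h3 j (hj.trans_le hk)
  exact ⟨h4, h5, h6.trans hqp.1 (hσ j hj)⟩

theorem VeryGood.weaken {b : Bool} {τ : Name W b} {q p : Cond W} {k : ℕ}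
    {σ σ' : ℕ → Set ℕ × Set W} {G : Finset ℕ} (h : VeryGood τ p k σ G) (hqp : q ≤ p)
    (hσ : ∀ j < k, Ext p.d (σ' j) (σ j)) : VeryGood τ q k σ' G := fun r hr τ' hτ =>
  h r (hr.trans hqp) τ' fun j hj => ⟨(hτ j hj).1, (hτ j hj).2.trans hqp.1 (hσ j hj)⟩

theorem VeryGood.good {b : Bool} {τ : Name W b} {p : Cond W} {k : ℕ}
    {σ : ℕ → Set ℕ × Set W} {G : Finset ℕ} (h : VeryGood τ p k σ G)
    (hσ : ∀ j < k, ColOK b p (σ j)) : Good τ p k σ G :=
  h p le_rfl σ fun j hj => ⟨hσ j hj, (hσ j hj).carry le_rfl |>.2⟩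

/-- A fusion sequence: at stage `i` there are `k + i` columns. -/
structure Fus (b : Bool) (k : ℕ) (p : ℕ → Cond W) (σ : ℕ → ℕ → Set ℕ × Set W) : Prop where
  le : ∀ i, p (i + 1) ≤ p i
  lt : ∀ i, (p i).d < (p (i + 1)).d
  ok : ∀ i, ∀ j < k + i, ColOK b (p i) (σ i j)
  ext : ∀ i, ∀ j < k + i, Ext (p i).d (σ (i + 1) j) (σ i j)
  new : ∀ i, ∀ i' ≤ i, ∃ n ≥ i, Ext (p i').d (σ (i + 1) (k + i)) ((p i').col b n)

variable (W)

/-! ### The tasks -/

/-- TASK Grow. Extend `p` by one new set on each side. Let `e` be the least element above `p.d`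
(so `Iio e = Iic p.d`), `q.d = e`, `q.C b p.d = D b` where `D b` splits all the (countably many)
infinite sets `A ∩ ⋂ x ∈ t, p.C b x`, `A ∈ p.Y b`, `t ⊆ Iio p.d` finite (use
`Pool.Agent.H282R3.TT.exists_split` of `Pool/Agent/H282R3/TT/Basic.lean`), `q.s = p.s`
except `q.s e = false` (any value), `q.A b n = p.A b n \ D b`, `q.E b n = insert p.d (p.E b n)`,
`q.Y b = p.Y b ∪ range (q.A b)`. -/
def TaskGrow : Prop := OmegaOneLike W → ∀ p : Cond W, ∃ q ≤ p, p.d < q.d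

/-- TASK Decide. For each `n`, `A n ∩ Z` or `A n \ Z` works off `E n` (if `t`, `t'` witness the
two failures then `t ∪ t'` contradicts that `A n` works). Pass to a subsequence `n_m` for which
always the same case holds; `q.A b m = p.A b (n_m) ∩ Z` (or `\ Z`), `q.E b m = p.E b (n_m)`,
the other side is unchanged, `q.d = p.d`. -/
def TaskDecide : Prop := ∀ (p : Cond W) (b : Bool) (Z : Set ℕ), ∃ q ≤ p, Z ∈ F b q ∨ Zᶜ ∈ F b q

/-- TASK Closed. The forcing is σ-closed. Let `d` be the least upper bound of the `(p i).d`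
(not necessarily strict). `q.s x = (p i).s x` if `x ≤ (p i).d` for some `i`, and `false` (anything)
otherwise; `q.C b x = (p i).C b x` if `x < (p i).d`; `q.Y b = ⋃ i, (p i).Y b`; the `j`-th column is
the `n_j`-th column of `p j`, where `n_j` is such that for all `i ≤ j` it extends a column of `p i`
with index `≥ j`. It works up to `d` since it is recorded in `(p j).Y b`. -/
def TaskClosed : Prop := OmegaOneLike W → ∀ p : ℕ → Cond W, (∀ i, p (i + 1) ≤ p i) →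
  ∃ q, ∀ i, q ≤ p i

/-- TASK Limit. `d` = least upper bound of the `(p i).d` (a limit, not attained), `q.d = d`,
`q.s d = b`, `q.s x = (p i).s x` for `x ≤ (p i).d`, `q.C b' x = (p i).C b' x` for `x < (p i).d`.
Side `b`: `σω j = (X j, ⋃ i (k + i > j), (σ i j).2)`, `q.col b j = σω (k + j)`,
`q.Y b = (⋃ i, (p i).Y b) ∪ range X`. The other side as in TASK Closed. `Small`: a limit point
`l < d` of the union is a limit point of some `(σ i j).2`, and for `l = d` we have `q.s d = b`. -/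
def TaskLimit : Prop := OmegaOneLike W → ∀ (b : Bool) (k : ℕ) (p : ℕ → Cond W)
  (σ : ℕ → ℕ → Set ℕ × Set W), Fus b k p σ → ∀ X : ℕ → Set ℕ,
  (∀ i, ∀ j < k + i, (X j \ (σ i j).1).Finite) →
  (∀ i, ∀ j < k + i, ∀ t : Finset W, (∀ x ∈ t, x < (p i).d ∧ x ∉ (σ i j).2) →
    (X j ∩ ⋂ x ∈ t, (p i).C b x).Infinite) →
  ∃ q : Cond W, (∀ i, q ≤ p i) ∧ ∃ σω : ℕ → Set ℕ × Set W, (∀ j, (σω j).1 = X j) ∧
    (∀ j, ColOK b q (σω j)) ∧ (∀ i, ∀ j < k + i, Ext (p i).d (σω j) (σ i j)) ∧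
    ∀ j, q.col b j = σω (k + j)

/-- TASK PI (pseudo-intersections inside a given set `G`). For fixed `j` enumerate the pairs
`(t, l)`; for `t ⊆ Iio (p i₀).d` off `(σ i₀ j).2` (then it is off all `(σ i j).2`) choose a point
`y ≥ l` of `G ∩ ⋂ i ≤ c (k + i > j), (σ i j).1 ∩ ⋂ x ∈ t, C x` where `c ≥ i₀` is at least the
code of `(t, l)` (infinite set, as `(σ c j).1` is almost contained in the earlier ones);
`X j` is the set of the chosen points. -/
def TaskPI : Prop := OmegaOneLike W → ∀ (b : Bool) (k : ℕ) (p : ℕ → Cond W)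
  (σ : ℕ → ℕ → Set ℕ × Set W), Fus b k p σ → ∀ G : Set ℕ,
  (∀ i, ∀ j < k + i, ∀ t : Finset W, (∀ x ∈ t, x < (p i).d ∧ x ∉ (σ i j).2) →
    (G ∩ (σ i j).1 ∩ ⋂ x ∈ t, (p i).C b x).Infinite) →
  ∃ X : ℕ → Set ℕ, (∀ j, X j ⊆ G) ∧
  (∀ i, ∀ j < k + i, (X j \ (σ i j).1).Finite) ∧
  (∀ i, ∀ j < k + i, ∀ t : Finset W, (∀ x ∈ t, x < (p i).d ∧ x ∉ (σ i j).2) →
    (X j ∩ ⋂ x ∈ t, (p i).C b x).Infinite)

/-- TASK Seq (dependent choice). Build `x (i + 1)` from `x i` by `H` with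
`n₀` so large that `n₀ ≥ i` and all the columns of `cond (x i)` with index `≥ n₀` extend, for all
`i' ≤ i`, a column of `cond (x i')` with index `≥ i`. -/
def TaskSeq : Prop := ∀ (St : Type) (cond : St → Cond W) (cols : St → ℕ → Set ℕ × Set W)
  (b : Bool) (k : ℕ) (Inv : ℕ → St → Prop) (Φ : ℕ → St → St → Prop) (x₀ : St), Inv 0 x₀ →
  (∀ j < k, ColOK b (cond x₀) (cols x₀ j)) →
  (∀ i x n₀, Inv i x → (∀ j < k + i, ColOK b (cond x) (cols x j)) → ∃ x',
    cond x' ≤ cond x ∧ (cond x).d < (cond x').d ∧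
    (∀ j < k + i, ColOK b (cond x') (cols x' j) ∧ Ext (cond x).d (cols x' j) (cols x j)) ∧
    ColOK b (cond x') (cols x' (k + i)) ∧
    (∃ n ≥ n₀, Ext (cond x).d (cols x' (k + i)) ((cond x).col b n)) ∧
    Inv (i + 1) x' ∧ Φ i x x') →
  ∃ x : ℕ → St, x 0 = x₀ ∧ (∀ i, Inv i (x i)) ∧ (∀ i, Φ i (x i) (x (i + 1))) ∧
    Fus b k (fun i => cond (x i)) fun i => cols (x i)

/-- TASK Record. Add a set to the record: `q` is `p` except `q.Y b = insert S (p.Y b)`. -/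
def TaskRecord : Prop := ∀ (p : Cond W) (b : Bool) (S : Set ℕ),
  ∃ q ≤ p, q.d = p.d ∧ (∀ c x, q.C c x = p.C c x) ∧ q.s = p.s ∧ S ∈ q.Y b

/-- TASK NewPoint (assume TaskGrow, TaskLimit, TaskPI, TaskSeq). Suppose not: for all `q ≤ p`,
all `σ'` extending `σ` at `q` and all `x ≥ m`, `x ∈ (σ j).1 ∩ ⋂ ξ ∈ t, C ξ`, `VeryGood q k σ'
(insert x G)` fails, so some further extension is not `Good`. TaskSeq with
`Inv i (q, σ) := q ≤ p, σ extends, and for all x < i as above ¬ Good q k σ (insert x G)` (this is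
hereditary by `Good.weaken`); the new columns are just columns of the current condition (carried by
`ColOK.carry`); use TaskGrow to increase `d`. PI with `G = univ` and Limit give `q`, `σω` with
`¬ Good q k σω (insert x G)` for all `x`. But `Good q k σω G`: each of the uncountably many `β` has
`r`, `B`, `σ'` with `(σ' j).1 ⊆ B`; `(σ' j).1` works off `(σ' j).2`, `t` is off it, so there is
`x ≥ m` in `(σ' j).1 ∩ (σ j).1 ∩ ⋂ ξ ∈ t, C ξ`; some `x` serves uncountably many `β`. -/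
def TaskNewPoint : Prop := OmegaOneLike W → ∀ (b : Bool) (τ : Name W b) (p : Cond W) (k : ℕ)
  (σ : ℕ → Set ℕ × Set W) (G : Finset ℕ), (∀ j < k, ColOK b p (σ j)) → VeryGood τ p k σ G →
  ∀ j < k, ∀ t : Finset W, (∀ x ∈ t, x < p.d ∧ x ∉ (σ j).2) → ∀ m : ℕ,
  ∃ q ≤ p, ∃ σ' : ℕ → Set ℕ × Set W, (∀ j < k, ColOK b q (σ' j) ∧ Ext p.d (σ' j) (σ j)) ∧
    ∃ x ≥ m, x ∈ (σ j).1 ∧ (∀ ξ ∈ t, x ∈ p.C b ξ) ∧ VeryGood τ q k σ' (insert x G)

/-- TASK NewCol (assume TaskGrow, TaskLimit, TaskPI, TaskSeq, TaskRecord). Suppose not: for all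
`q ≤ p`, `σ'` extending `σ` at `q`, `n` such that `q.col b n` extends some `p.col b n'` with
`n' ≥ n₀` (this is so for large `n`), the `k + 1` columns `σ' j` (`j < k`), `q.col b n` are
not VeryGood, so some extension of them is not Good. TaskSeq with `Inv i (q, σ) := q ≤ p,
σ extends on j < k, and for all l < i the k + 1 columns σ j (j < k), σ (k + l) are not Good at q`
(hereditary). In the step: take a large `n` (so `n ≥ n₀'`), the columns `σ j` (`j < k`) and `q.col b n` are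
extended to non-Good ones at some `q' ≤ q`, the columns `k ≤ j < k + i` are carried. PI, Limit:
`q`, `σω`, `q.col b l = σω (k + l)`, and `σω j (j < k), q.col b l` is not Good at `q`, for all `l`.
But `Good q k σω G`: for uncountably many `β`: `r ≤ q`, `B`, `σ'`; by `τ.mem` and `ColOK.carry`
we may assume `B ∈ F b r`; then for a large `m` the column `(r.A b m ∩ B, r.E b m)` (record it by
TaskRecord; it works since `r.A b m \ B` is finite) extends some column `q.col b l`. Some `l` serves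
uncountably many `β`. -/
def TaskNewCol : Prop := OmegaOneLike W → ∀ (b : Bool) (τ : Name W b) (p : Cond W) (k : ℕ)
  (σ : ℕ → Set ℕ × Set W) (G : Finset ℕ), (∀ j < k, ColOK b p (σ j)) → VeryGood τ p k σ G →
  ∀ n₀ : ℕ, ∃ q ≤ p, ∃ σ' : ℕ → Set ℕ × Set W,
    (∀ j < k, ColOK b q (σ' j) ∧ Ext p.d (σ' j) (σ j)) ∧
    ∃ n, (∃ n' ≥ n₀, Ext p.d (q.col b n) (p.col b n')) ∧
      VeryGood τ q (k + 1) (fun j => if j < k then σ' j else q.col b n) G

/-- TASK Main (assume all the above). Non-Tukey-topness. TaskSeq with `k = 0`; at stage `i` the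
state has `p`, columns `σ j` (`j < i`), a finite set `G`, names decided `β l`, `B l` (`l < i`) with
`τ.v p (β l) (B l)`, `G ⊆ B l`, `B l ∈ F b p`, `(σ j).1 \ B l` finite, `β` injective, sets
`D j` (`j < i`, the intersection of all the earlier `(σ j).1`) with `(σ j).1 \ D j` finite, and
`VeryGood τ p i σ G`. Step: NewCol with large `n₀` (so that `(q.A b n) \ B l` is finite), Good
gives a new `β i`, `B i`, smaller columns inside `B i`; `τ.mem` gives `B i ∈ F b q`; then apply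
NewPoint finitely many times: for all `j ≤ i` and all `t` with code `≤ i` add to `G` a point
`x ≥ i` of `(σ j).1 ∩ D j ∩ ⋂ l ≤ i, B l ∩ ⋂ ξ ∈ t, C ξ` (take `m` large); finally TaskGrow.
In the end `Gω = ⋃ G i ⊆ ⋂ l, B l`, PI with `Gω`, Limit: `q`, and all `q.A b j = X j ⊆ Gω`. -/
def TaskMain : Prop := OmegaOneLike W → ∀ (b : Bool) (τ : Name W b) (p : Cond W),
  ∃ q ≤ p, ∃ I : Set W, I.Infinite ∧ I.Countable ∧ ∃ B : W → Set ℕ,
    (∀ β ∈ I, τ.v q β (B β)) ∧ (⋂ β ∈ I, B β) ∈ F b q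

/-- TASK Orth. If `B b ∈ F b p` is disjoint from all `p.C b ξ`, `ξ ∈ I`, then `I ⊆ p.E b n` for
large `n`, so all the limit points `l` of `I` satisfy `p.s l = b`, for both values of `b`; but an
infinite subset of a well-order which is bounded has a limit point (the sup of its first `ω`
elements). -/
def TaskOrth : Prop := OmegaOneLike W → ∀ (p : Cond W) (I : Set W), I.Infinite → I ⊆ Iio p.d →
  (∀ b, ∃ B ∈ F b p, ∀ ξ ∈ I, Disjoint B (p.C b ξ)) → False

/-- TASK Init. There is a condition: `d` the least element, all `A b n = univ`, `E b n = ∅`. -/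
def TaskInit : Prop := OmegaOneLike W → Nonempty (Cond W)

/-- TASK Om. The order of type `ω₁` in Mathlib. -/
def TaskOm : Prop := OmegaOneLike ((Cardinal.aleph.{0} 1).ord.ToType)

end Pool.Agent.H282R3.FP
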