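import Pool.Agent.H282R3.FP.Force

/-!
# The forcing notion forces the continuum hypothesis, by coding (MP_0d317a_lc)
-/

set_option autoImplicit false

namespace Pool.Agent.H282R3.FP

open Set Cardinal
open Pool.Agent.Helper292.ForceCH (fnot fand fall fimp fiff fex fground meets IsFun Om SigmaClosed
  OmegaOnePreserved CHHolds mem_fex mem_fimp Down down_fnot down_fand down_fall down_fex down_fimp
  down_meets meets_of_dense fimp_of fiff_of_decided meet_countable decide_countable exists_bound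
  ub lt_ub ub_le)

/-- the next element -/
noncomputable def nx (a : Om) : Om := ub fun _ => a

theorem lt_nx (a : Om) : a < nx a := lt_ub (fun _ => a) 0

theorem le_of_lt_nx {a b : Om} (h : b < nx a) : b ≤ a := by
  obtain ⟨_, h'⟩ := ub_le (fun _ => a) h
  exact h'

/-- conditions can be extended by one step with a prescribed value of `s` -/
def GrowS : Prop := ∀ (p : Cond Om) (c : Bool), ∃ q ≤ p, q.d = nx p.d ∧ q.s q.d = c

/-- the name of the `a`-th real -/
def code (a : Om) (n : ℕ) : Set (Cond Om) :=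
  {q | nx^[n + 1] a ≤ q.d ∧ q.s (nx^[n + 1] a) = true}

theorem chHolds_code (hG : GrowS) (hσ : SigmaClosed (Cond Om)) (p : Cond Om) :
    p ∈ CHHolds (Cond Om) := by
  classical
  refine mem_fex.2 fun q _ => ⟨q, le_rfl, code, fun x => mem_fex.2 fun r _ => ?_⟩
  obtain ⟨t, ht, h1⟩ := decide_countable hσ (fun n : ℕ => meets (x n)) (fun _ => down_meets _) r
  have step : ∀ (n : ℕ) (u : Cond Om), ∃ v ≤ u, v.d = nx u.d ∧
      v.s v.d = decide (t ∈ meets (x n)) := fun n u => hG u _
  choose f hf hf1 hf2 using step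
  let s : ℕ → Cond Om := fun n => Nat.rec t (fun k u => f k u) n
  have hs : ∀ n, s (n + 1) ≤ s n := fun n => hf n (s n)
  obtain ⟨v, hv⟩ := hσ s hs
  have hd : ∀ n, (s n).d = nx^[n] t.d := by
    intro n
    induction n with
    | zero => rfl
    | succ n ih =>
      rw [Function.iterate_succ_apply', ← ih]
      exact hf1 n (s n)
  have hv1 : ∀ n, nx^[n + 1] t.d ≤ v.d := fun n => by
    rw [← hd]
    exact (hv (n + 1)).1
  have hv2 : ∀ n, v.s (nx^[n + 1] t.d) = decide (t ∈ meets (x n)) := by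
    intro n
    have h2 := (hv (n + 1)).2.1 (nx^[n + 1] t.d) (hd (n + 1)).symm.le
    rw [h2, ← hf2 n (s n), ← hd (n + 1)]
  refine ⟨v, (hv 0).trans ht, t.d, fun n => fiff_of_decided (down_meets _) (down_meets _) ?_⟩
  rcases h1 n with h8 | h8
  · refine Or.inl ⟨down_meets _ _ h8 _ (hv 0), fun w hw => ⟨w, le_rfl, v, ⟨hv1 n, ?_⟩, hw⟩⟩
    rw [hv2]
    exact decide_eq_true h8
  · refine Or.inr ⟨down_fnot _ _ h8 _ (hv 0), fun w hw hw' => ?_⟩
    obtain ⟨y, hy, z, ⟨hz1, hz2⟩, hyz⟩ := hw' w le_rfl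
    have h3 : y.s (nx^[n + 1] t.d) = v.s (nx^[n + 1] t.d) :=
      (hy.trans hw).2.1 _ (hv1 n)
    have h4 : y.s (nx^[n + 1] t.d) = z.s (nx^[n + 1] t.d) := hyz.2.1 _ hz1
    rw [hv2, h4, hz2] at h3
    exact h8 t le_rfl (of_decide_eq_true h3.symm)

theorem final_code (hG : GrowS) (hClosed : TaskClosed Om) (hOrth : TaskOrth Om)
    (hDec : TaskDecide Om) (hMain : TaskMain Om) (hInit : TaskInit Om) (hOm : OmegaOneLike Om) :
    ∃ (P : Type) (_ : Preorder P), Nonempty P ∧ ∀ p : P,
      p ∈ OmegaOnePreserved P ∧ p ∈ CHHolds P ∧ p ∈ NoNewReals P ∧ p ∈ Counterexample P := by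
  have hσ : SigmaClosed (Cond Om) := fun s hs => hClosed hOm s hs
  have hGrow : TaskGrow Om := by
    intro _ p
    obtain ⟨q, hq, h1, _⟩ := hG p false
    exact ⟨q, hq, by rw [h1]; exact lt_nx _⟩
  exact ⟨Cond Om, inferInstance, hInit hOm, fun p => ⟨omegaOnePreserved_of hσ p,
    chHolds_code hG hσ p, noNewReals_of hσ p,
    counterexample hGrow hClosed hOrth hDec hMain hOm p⟩⟩

end Pool.Agent.H282R3.FP
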