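import Pool.Agent.H282R3.FP.Stmts

/-!
# TASK Closed: the forcing is σ-closed
-/

set_option autoImplicit false

namespace Pool.Agent.H282R3.FP

open Set

namespace Closed

variable {W : Type} [LinearOrder W]

theorem exists_lub (hW : OmegaOneLike W) (f : ℕ → W) :
    ∃ d, (∀ i, f i ≤ d) ∧ ∀ w < d, ∃ i, w < f i := by
  haveI := hW.wf
  obtain ⟨w, hw⟩ := hW.bdd (range f) (countable_range f)
  have hne : {d : W | ∀ i, f i ≤ d}.Nonempty := ⟨w, fun i => (hw _ ⟨i, rfl⟩).le⟩
  obtain ⟨d, hd, hmin⟩ := (wellFounded_lt (α := W)).has_min _ hne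
  refine ⟨d, hd, fun x hx => ?_⟩
  by_contra hcon
  push Not at hcon
  exact hmin x hcon hx

open Classical in
/-- the function `s` of the limit -/
noncomputable def qs (p : ℕ → Cond W) (x : W) : Bool :=
  if h : ∃ i, x ≤ (p i).d then (p (Nat.find h)).s x else false

open Classical in
/-- the sets `C` of the limit -/
noncomputable def qC (p : ℕ → Cond W) (b : Bool) (x : W) : Set ℕ :=
  if h : ∃ i, x < (p i).d then (p (Nat.find h)).C b x else ∅

variable {p : ℕ → Cond W} (hp : ∀ i, p (i + 1) ≤ p i)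

include hp

theorem anti : Antitone p := antitone_nat_of_succ_le hp

theorem qs_eq {i : ℕ} {x : W} (hx : x ≤ (p i).d) : qs p x = (p i).s x := by
  classical
  have h : ∃ i, x ≤ (p i).d := ⟨i, hx⟩
  have h0 : qs p x = (p (Nat.find h)).s x := by
    rw [qs, dif_pos h]
  rw [h0]
  have h1 : p i ≤ p (Nat.find h) := anti hp (Nat.find_min' h hx)
  exact (h1.2.1 x (Nat.find_spec h)).symm

theorem qC_eq {i : ℕ} {b : Bool} {x : W} (hx : x < (p i).d) : qC p b x = (p i).C b x := by
  classical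
  have h : ∃ i, x < (p i).d := ⟨i, hx⟩
  have h0 : qC p b x = (p (Nat.find h)).C b x := by
    rw [qC, dif_pos h]
  rw [h0]
  have h1 : p i ≤ p (Nat.find h) := anti hp (Nat.find_min' h hx)
  exact (h1.2.2.1 b x (Nat.find_spec h)).symm

theorem works_lift {d : W} (hd : ∀ w < d, ∃ i, w < (p i).d) {b : Bool} {i : ℕ} {A : Set ℕ}
    (hA : A ∈ (p i).Y b) {E : Set W} (hw : Works ((p i).C b) (p i).d E A) :
    Works (qC p b) d E A := by
  intro t ht
  have h1 : ∃ j, i ≤ j ∧ ∀ x ∈ t, x < (p j).d := by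
    have h2 : ∀ x ∈ t, ∀ᶠ j in Filter.atTop, x < (p j).d := by
      intro x hx
      obtain ⟨j, hj⟩ := hd x (ht x hx).1
      exact Filter.eventually_atTop.2 ⟨j, fun k hk => hj.trans_le (anti hp hk).1⟩
    have h3 := ((Filter.eventually_all_finset t).2 h2).and (Filter.eventually_ge_atTop i)
    obtain ⟨j, hj1, hj2⟩ := h3.exists
    exact ⟨j, hj2, hj1⟩
  obtain ⟨j, hij, hj⟩ := h1
  have h4 := (anti hp hij).2.2.2.2.1 b A hA E hw
  have h5 := h4 t (fun x hx => ⟨hj x hx, (ht x hx).2⟩)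
  have h6 : (⋂ x ∈ t, qC p b x) = ⋂ x ∈ t, (p j).C b x := by
    refine iInter_congr fun x => iInter_congr fun hx => ?_
    exact qC_eq hp (hj x hx)
  rw [h6]
  exact h5

theorem exists_index (b : Bool) (j : ℕ) : ∃ m, ∀ i ≤ j, ∃ n ≥ j,
    Ext (p i).d ((p j).col b m) ((p i).col b n) := by
  have h1 : ∀ i ∈ Iic j, ∀ᶠ m in Filter.atTop, ∃ n ≥ j,
      Ext (p i).d ((p j).col b m) ((p i).col b n) := by
    intro i hi
    obtain ⟨N, hN⟩ := (anti hp hi).2.2.2.2.2 b j
    exact Filter.eventually_atTop.2 ⟨N, hN⟩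
  obtain ⟨m, hm⟩ := ((Filter.eventually_all_finite (finite_Iic j)).2 h1).exists
  exact ⟨m, fun i hi => hm i hi⟩

end Closed

open Closed

/-- The forcing is σ-closed. -/
theorem taskClosed {W : Type} [LinearOrder W] : TaskClosed W := by
  intro hW p hp
  obtain ⟨d, hd1, hd2⟩ := exists_lub hW (fun i => (p i).d)
  choose nj hnj using fun b j => exists_index hp b j
  refine ⟨{ d := d, s := qs p, C := qC p, Y := fun b => ⋃ i, (p i).Y b,
            A := fun b j => (p j).A b (nj b j), E := fun b j => (p j).E b (nj b j),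
            hY := fun b => countable_iUnion fun i => (p i).hY b,
            hA := fun b j => mem_iUnion.2 ⟨j, (p j).hA b _⟩,
            hE := fun b j x hx => mem_Iio.2 ((mem_Iio.1 ((p j).hE b _ hx)).trans_le (hd1 j)),
            hs := ?_, hw := ?_, hC := ?_ }, ?_⟩
  · intro b j l hl
    have hle : l ≤ (p j).d := by
      by_contra hcon
      push Not at hcon
      obtain ⟨x, hx, hx1, _⟩ := hl.2 _ hcon
      exact absurd (mem_Iio.1 ((p j).hE b _ hx)) (not_lt.2 hx1.le)
    rw [qs_eq hp hle]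
    exact (p j).hs b _ l hl
  · intro b j
    exact works_lift hp hd2 ((p j).hA b _) ((p j).hw b _)
  · intro b x hx
    obtain ⟨i, hi⟩ := hd2 x hx
    obtain ⟨N, hN⟩ := (p i).hC b x hi
    refine ⟨max N i, fun n hn => ?_⟩
    rw [qC_eq hp hi]
    obtain ⟨n', hn', h1, _⟩ := hnj b n i (le_trans (le_max_right _ _) hn)
    have h2 := hN n' (le_trans (le_trans (le_max_left _ _) hn) hn')
    refine (h1.union h2).subset ?_
    intro y hy
    by_cases hy' : y ∈ ((p i).col b n').1
    · exact Or.inr ⟨hy', hy.2⟩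
    · exact Or.inl ⟨hy.1, hy'⟩
  · intro i
    rw [Cond.le_def]
    refine ⟨hd1 i, fun x hx => qs_eq hp hx, fun b x hx => qC_eq hp hx,
      fun b => subset_iUnion (fun i => (p i).Y b) i,
      fun b A hA E hE => works_lift hp hd2 hA hE, fun b k => ⟨max k i, fun m hm => ?_⟩⟩
    obtain ⟨n, hn, h⟩ := hnj b m i (le_trans (le_max_right _ _) hm)
    exact ⟨n, le_trans (le_trans (le_max_left _ _) hm) hn, h⟩

end Pool.Agent.H282R3.FP
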