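import Pool.Agent.Helper292.ForceCH

/-!
# Sentences of the forcing language about ultrafilters on `ω` (MP_0d317a_lc)

The ultrafilters of the extension are named by maps `U` sending a ground model subset `B` of `ℕ`
to the set of the conditions attached to `B`; this is enough when every subset of `ℕ` in the
extension is in the ground model.
-/

set_option autoImplicit false

namespace Pool.Agent.H282R3.FP

open Pool.Agent.Helper292.ForceCH (fnot fand fall fimp fiff fex fground meets IsFun Om)

/-- `p` forces that every subset of `ℕ` is in the ground model. -/
def NoNewReals (P : Type) [Preorder P] : Set P :=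
  fall fun x : ℕ → Set P => fex fun Z : Set ℕ => fall fun n : ℕ =>
    fiff (meets (x n)) (fground (n ∈ Z))

variable {P : Type} [Preorder P]

/-- `U` names a nonprincipal ultrafilter on `ℕ`: it is upward closed, closed under intersections,
it contains the complement of `B` iff it does not contain `B`, and its members are infinite. -/
def IsUltra (U : Set ℕ → Set P) : Set P :=
  fand (fall fun B => fall fun B' =>
      fimp (fand (meets (U B)) (fground (B ⊆ B'))) (meets (U B')))
    (fand (fall fun B => fall fun B' =>
        fimp (fand (meets (U B)) (meets (U B'))) (meets (U (B ∩ B'))))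
      (fand (fall fun B => fiff (meets (U Bᶜ)) (fnot (meets (U B))))
        (fall fun B => fimp (meets (U B)) (fground B.Infinite))))

/-- The subset of `ω₁` named by `I` is infinite: no finite set contains it. -/
def IsInf (I : Om → Set P) : Set P :=
  fall fun F : Finset Om => fex fun a => fand (fground (a ∉ F)) (meets (I a))

/-- Let `φ B` be the sentence saying that the set `B ⊆ X` is in a given family of sets. There is
a function `A` from `ω₁` to the family such that for no infinite `I ⊆ ω₁` the family has a member
`B` which is contained in `A a` for all `a ∈ I`. -/
def IsTop {X : Type} (φ : Set X → Set P) : Set P :=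
  fex fun A : Om → Set X → Set P => fand (IsFun A)
    (fand (fall fun a => fall fun B => fimp (meets (A a B)) (φ B))
      (fall fun I : Om → Set P => fimp (IsInf I)
        (fnot (fex fun B : Set X => fand (φ B)
          (fall fun a => fall fun B' : Set X =>
            fimp (fand (meets (I a)) (meets (A a B'))) (fground (B ⊆ B')))))))

/-- `X ⊆ ℕ × ℕ` is in the Fubini product of `U` and `V`: there is `Z ∈ U` such that for all `n`,
`n ∈ Z` if and only if `{m | (n, m) ∈ X} ∈ V`. -/
def InProd (U V : Set ℕ → Set P) (X : Set (ℕ × ℕ)) : Set P :=
  fex fun Z : Set ℕ => fand (meets (U Z))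
    (fall fun n : ℕ => fiff (fground (n ∈ Z)) (meets (V {m | (n, m) ∈ X})))

variable (P) in
/-- There are nonprincipal ultrafilters `U`, `V` on `ℕ` which are not Tukey-top while their Fubini
product is Tukey-top. -/
def Counterexample : Set P :=
  fex fun U : Set ℕ → Set P => fex fun V : Set ℕ → Set P =>
    fand (IsUltra U) (fand (IsUltra V)
      (fand (fnot (IsTop fun B => meets (U B))) (fand (fnot (IsTop fun B => meets (V B)))
        (IsTop (InProd U V)))))

end Pool.Agent.H282R3.FP
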