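import Pool.Agent.H282R3.FP.Stmts
import Pool.Agent.H282R3.FP.Sent

/-!
# The forcing notion forces the counterexample (MP_0d317a_lc)
-/

set_option autoImplicit false

namespace Pool.Agent.H282R3.FP

open Set Cardinal
open Pool.Agent.Helper292.ForceCH (fnot fand fall fimp fiff fex fground meets IsFun Om SigmaClosed
  OmegaOnePreserved CHHolds mem_fex mem_fimp Down down_fnot down_fand down_fall down_fex down_fimp
  down_meets meets_of_dense fimp_of fiff_of_decided meet_countable decide_countable exists_bound)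

/-! ### σ-closed forcing -/

section

variable {P : Type} [Preorder P]

theorem omegaOnePreserved_of (hP : SigmaClosed P) (p : P) : p ∈ OmegaOnePreserved P := by
  intro q _ hq
  obtain ⟨r, _, R, hR, hR'⟩ := mem_fex.1 hq q le_rfl
  obtain ⟨t, ht, h1⟩ := meet_countable hP (fun n => {t | ∃ a, t ∈ meets (R n a)})
    (fun n t ⟨a, ha⟩ t' ht' => ⟨a, down_meets _ _ ha _ ht'⟩) r (by
      intro n t ht
      obtain ⟨t', ht', a, ha⟩ := mem_fex.1 (hR.1 n) t ht
      exact ⟨t', ht', a, ha⟩)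
  choose g hg using h1
  obtain ⟨b, hb⟩ := exists_bound g
  obtain ⟨t', ht', n, hn⟩ := mem_fex.1 (hR' b) t ht
  have h2 := hR.2 n (g n) b
  obtain ⟨t'', _, h3⟩ := mem_fimp.1 h2 t' (ht'.trans ht) ⟨down_meets _ _ (hg n) _ ht', hn⟩
  exact (hb n).ne h3

theorem noNewReals_of (hP : SigmaClosed P) (p : P) : p ∈ NoNewReals P := by
  intro x
  refine mem_fex.2 fun q _ => ?_
  obtain ⟨t, ht, h1⟩ := decide_countable hP (fun n : ℕ => meets (x n))
    (fun _ => down_meets _) q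
  refine ⟨t, ht, {n | t ∈ meets (x n)}, fun n => ?_⟩
  refine fiff_of_decided (down_meets _) (fun _ h _ _ => h) ?_
  rcases h1 n with h | h
  · exact Or.inl ⟨h, h⟩
  · exact Or.inr ⟨h, fun r hr h' => h t le_rfl h'⟩

theorem chHolds_of (hP : SigmaClosed P) (hCH : Cardinal.aleph 1 = Cardinal.continuum.{0}) (p : P) :
    p ∈ CHHolds P := by
  have hcard : #Om = #(Set ℕ) := by
    have h1 : #Om = ℵ₁ := by simp
    rw [h1, hCH]
    simp
  obtain ⟨e⟩ := Cardinal.eq.1 hcard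
  refine mem_fex.2 fun q _ => ⟨q, le_rfl, fun a n => {_r | n ∈ e a}, fun x => ?_⟩
  refine mem_fex.2 fun r _ => ?_
  obtain ⟨t, ht, h1⟩ := decide_countable hP (fun n : ℕ => meets (x n))
    (fun _ => down_meets _) r
  refine ⟨t, ht, e.symm {n | t ∈ meets (x n)}, fun n => ?_⟩
  refine fiff_of_decided (down_meets _) (down_meets _) ?_
  rcases h1 n with h | h
  · refine Or.inl ⟨h, fun s hs => ⟨s, le_rfl, s, ?_, le_rfl⟩⟩
    change n ∈ e (e.symm _)
    rw [Equiv.apply_symm_apply]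
    exact h
  · refine Or.inr ⟨h, fun s hs h' => ?_⟩
    obtain ⟨s', _, s'', h2, _⟩ := h' s le_rfl
    change n ∈ e (e.symm _) at h2
    rw [Equiv.apply_symm_apply] at h2
    exact h t le_rfl h2

end

/-! ### The filters -/

section

variable {W : Type} [LinearOrder W]

theorem F_up {b : Bool} {p : Cond W} {B B' : Set ℕ} (h : B ∈ F b p) (hB : B ⊆ B') :
    B' ∈ F b p := by
  obtain ⟨N, hN⟩ := h
  exact ⟨N, fun n hn => (hN n hn).subset (sdiff_subset_sdiff_right hB)⟩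

theorem F_inter {b : Bool} {p : Cond W} {B B' : Set ℕ} (h : B ∈ F b p) (h' : B' ∈ F b p) :
    B ∩ B' ∈ F b p := by
  obtain ⟨N, hN⟩ := h
  obtain ⟨N', hN'⟩ := h'
  refine ⟨max N N', fun n hn => ((hN n (le_of_max_le_left hn)).union
    (hN' n (le_of_max_le_right hn))).subset ?_⟩
  rintro x ⟨hx, hx'⟩
  by_cases h1 : x ∈ B
  · exact Or.inr ⟨hx, fun h2 => hx' ⟨h1, h2⟩⟩
  · exact Or.inl ⟨hx, h1⟩

theorem F_infinite {b : Bool} {p : Cond W} {B : Set ℕ} (h : B ∈ F b p) : B.Infinite := by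
  obtain ⟨N, hN⟩ := h
  intro hfin
  have h1 := p.hw b N ∅ (by simp)
  refine h1 (((hN N le_rfl).union hfin).subset ?_)
  rintro x ⟨hx, _⟩
  by_cases h2 : x ∈ B
  · exact Or.inr h2
  · exact Or.inl ⟨hx, h2⟩

theorem F_univ (b : Bool) (p : Cond W) : Set.univ ∈ F b p := ⟨0, fun n _ => by simp⟩

theorem compl_mem_F {b : Bool} {p : Cond W} {x : W} (hx : x < p.d) : (p.C b x)ᶜ ∈ F b p := by
  obtain ⟨N, hN⟩ := p.hC b x hx
  refine ⟨N, fun n hn => (hN n hn).subset ?_⟩
  rintro y ⟨h1, h2⟩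
  exact ⟨h1, not_not.1 h2⟩

/-- the name of the ultrafilter of the side `b` -/
def UN (W : Type) [LinearOrder W] (b : Bool) (B : Set ℕ) : Set (Cond W) := {q | B ∈ F b q}

theorem mem_meets_UN {b : Bool} {B : Set ℕ} {p : Cond W} :
    p ∈ meets (UN W b B) ↔ ∀ q ≤ p, ∃ r ≤ q, B ∈ F b r := by
  constructor
  · intro h q hq
    obtain ⟨r, hr, s, hs, hrs⟩ := h q hq
    exact ⟨r, hr, F_mono hrs hs⟩
  · intro h q hq
    obtain ⟨r, hr, h'⟩ := h q hq
    exact ⟨r, hr, r, h', le_rfl⟩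

theorem meets_UN_of_mem {b : Bool} {B : Set ℕ} {p : Cond W} (h : B ∈ F b p) :
    p ∈ meets (UN W b B) :=
  mem_meets_UN.2 fun q hq => ⟨q, le_rfl, F_mono hq h⟩

theorem isUltra (hDec : TaskDecide W) (b : Bool) (p : Cond W) : p ∈ IsUltra (UN W b) := by
  refine ⟨fun B B' => fimp_of fun q _ h => ?_, fun B B' => fimp_of fun q _ h => ?_,
    fun B => ⟨fimp_of fun q _ h => ?_, fimp_of fun q _ h => ?_⟩, fun B => fimp_of fun q _ h => ?_⟩
  · refine mem_meets_UN.2 fun r hr => ?_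
    obtain ⟨r', hr', h1⟩ := mem_meets_UN.1 h.1 r hr
    exact ⟨r', hr', F_up h1 h.2⟩
  · refine mem_meets_UN.2 fun r hr => ?_
    obtain ⟨r', hr', h1⟩ := mem_meets_UN.1 h.1 r hr
    obtain ⟨r'', hr'', h2⟩ := mem_meets_UN.1 h.2 r' (hr'.trans hr)
    exact ⟨r'', hr''.trans hr', F_inter (F_mono hr'' h1) h2⟩
  · intro r hr h'
    obtain ⟨r', hr', h1⟩ := mem_meets_UN.1 h r hr
    obtain ⟨r'', hr'', h2⟩ := mem_meets_UN.1 h' r' hr'
    have h3 := F_infinite (F_inter (F_mono hr'' h1) h2)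
    rw [compl_inter_self] at h3
    exact h3 finite_empty
  · refine mem_meets_UN.2 fun r hr => ?_
    obtain ⟨r', hr', h1 | h1⟩ := hDec r b B
    · exact absurd (meets_UN_of_mem h1) (h r' (hr'.trans hr))
    · exact ⟨r', hr', h1⟩
  · obtain ⟨r, _, h1⟩ := mem_meets_UN.1 h q le_rfl
    exact F_infinite h1

end

/-! ### Non-Tukey-topness -/

section

variable (hMain : TaskMain Om) (hOm : OmegaOneLike Om)

/-- the `Name` obtained from a name of a function into the ultrafilter, below `r₀` -/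
theorem exists_name {b : Bool} {A : Om → Set ℕ → Set (Cond Om)} {r₀ : Cond Om}
    (hA : r₀ ∈ IsFun A) (hU : ∀ a B, r₀ ∈ fimp (meets (A a B)) (meets (UN Om b B))) :
    ∃ τ : Name Om b, ∀ q ≤ r₀, ∀ a B, τ.v q a B → q ∈ meets (A a B) := by
  classical
  refine ⟨⟨fun p a B => (p ≤ r₀ ∧ p ∈ meets (A a B)) ∨ ((∀ q ≤ p, ¬ q ≤ r₀) ∧ B = Set.univ),
    ?_, ?_, ?_, ?_⟩, ?_⟩
  · rintro p q a B hqp (⟨h1, h2⟩ | ⟨h1, h2⟩)
    · exact Or.inl ⟨hqp.trans h1, down_meets _ _ h2 _ hqp⟩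
    · exact Or.inr ⟨fun r hr => h1 r (hr.trans hqp), h2⟩
  · rintro p a B B' (⟨h1, h2⟩ | ⟨h1, h2⟩) (⟨h3, h4⟩ | ⟨h3, h4⟩)
    · obtain ⟨_, _, h5⟩ := mem_fimp.1 (hA.2 a B B') p h1 ⟨h2, h4⟩
      exact h5
    · exact absurd h1 (h3 p le_rfl)
    · exact absurd h3 (h1 p le_rfl)
    · rw [h2, h4]
  · intro p a
    by_cases h : ∃ q ≤ p, q ≤ r₀
    · obtain ⟨q, hq, hq'⟩ := h
      obtain ⟨r, hr, B, h1⟩ := mem_fex.1 (hA.1 a) q hq'
      exact ⟨r, hr.trans hq, B, Or.inl ⟨hr.trans hq', h1⟩⟩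
    · push Not at h
      exact ⟨p, le_rfl, Set.univ, Or.inr ⟨h, rfl⟩⟩
  · rintro p a B (⟨h1, h2⟩ | ⟨_, rfl⟩)
    · obtain ⟨q, hq, h3⟩ := mem_fimp.1 (hU a B) p h1 h2
      obtain ⟨r, hr, h4⟩ := mem_meets_UN.1 h3 q le_rfl
      exact ⟨r, hr.trans hq, h4⟩
    · exact ⟨p, le_rfl, F_univ b p⟩
  · rintro q hq a B (⟨_, h⟩ | ⟨h, _⟩)
    · exact h
    · exact absurd hq (h q le_rfl)

include hMain hOm in
theorem not_isTop (b : Bool) (p : Cond Om) : p ∈ fnot (IsTop fun B => meets (UN Om b B)) := by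
  intro q _ hq
  obtain ⟨r₀, _, A, hA, hU, hT⟩ := mem_fex.1 hq q le_rfl
  obtain ⟨τ, hτ⟩ := exists_name hA hU
  obtain ⟨r, hr, I, hI, _, B, hB, hBF⟩ := hMain hOm b τ r₀
  have hinf : r ∈ IsInf (fun a : Om => ({_s | a ∈ I} : Set (Cond Om))) := by
    intro G
    refine mem_fex.2 fun s _ => ?_
    obtain ⟨a, haI, haG⟩ := hI.exists_notMem_finset G
    exact ⟨s, le_rfl, a, haG, fun t _ => ⟨t, le_rfl, t, haI, le_rfl⟩⟩
  obtain ⟨s, hs, h1⟩ := mem_fimp.1 (hT _) r hr hinf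
  refine h1 s le_rfl (mem_fex.2 fun t ht => ⟨t, le_rfl, ⋂ β ∈ I, B β,
    meets_UN_of_mem (F_mono (ht.trans hs) hBF), fun a B' => fimp_of fun v hv h2 => ?_⟩)
  obtain ⟨w, hw, _, haI, _⟩ := h2.1 v le_rfl
  have haI' : a ∈ I := haI
  have h3 : w ∈ meets (A a (B a)) :=
    down_meets _ _ (hτ r hr a _ (hB a haI')) _ (hw.trans (hv.trans (ht.trans hs)))
  have h4 : w ∈ meets (A a B') := down_meets _ _ h2.2 _ hw
  obtain ⟨_, _, h5⟩ := mem_fimp.1 (hA.2 a (B a) B') w
    (hw.trans (hv.trans (ht.trans (hs.trans hr)))) ⟨h3, h4⟩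
  have h5' : B a = B' := h5
  change (⋂ β ∈ I, B β) ⊆ B'
  rw [← h5']
  exact biInter_subset_of_mem haI'

end

/-! ### The Fubini product -/

section

variable (hGrow : TaskGrow Om) (hClosed : TaskClosed Om) (hOrth : TaskOrth Om)
  (hOm : OmegaOneLike Om)

include hGrow hClosed hOm in
/-- `d` can be made as large as we like -/
theorem exists_longer (a : Om) : ∀ p : Cond Om, ∃ q ≤ p, a < q.d := by
  have := hOm.wf
  induction a using WellFoundedLT.induction with
  | ind a ih =>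
    intro p
    rcases (Iio a).eq_empty_or_nonempty with he | hne
    · obtain ⟨q, hq, h1⟩ := hGrow hOm p
      refine ⟨q, hq, ?_⟩
      by_contra hcon
      push Not at hcon
      have h2 : p.d ∈ Iio a := h1.trans_le hcon
      rw [he] at h2
      exact h2
    · obtain ⟨e, he⟩ := (hOm.countable a).exists_eq_range hne
      have hlt : ∀ n, e n < a := fun n => by
        have : e n ∈ Iio a := by rw [he]; exact ⟨n, rfl⟩
        exact this
      have step : ∀ (n : ℕ) (r : Cond Om), ∃ q ≤ r, e n < q.d := fun n r => ih (e n) (hlt n) r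
      choose f hf hf' using step
      let s : ℕ → Cond Om := fun n => Nat.rec p (fun k r => f k r) n
      have hs : ∀ n, s (n + 1) ≤ s n := fun n => hf n (s n)
      obtain ⟨q, hq⟩ := hClosed hOm s hs
      obtain ⟨r, hr, h1⟩ := hGrow hOm q
      refine ⟨r, hr.trans (hq 0), lt_of_le_of_lt ?_ h1⟩
      by_contra hcon
      push Not at hcon
      have h2 : q.d ∈ Iio a := hcon
      rw [he] at h2
      obtain ⟨n, hn⟩ := h2
      have h3 : e n < (s (n + 1)).d := hf' n (s n)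
      have h4 : (s (n + 1)).d ≤ q.d := (hq (n + 1)).1
      exact absurd (h3.trans_le h4) (by rw [hn]; exact lt_irrefl _)

/-- the rectangle -/
def rect (q : Cond Om) (a : Om) : Set (ℕ × ℕ) := {x | x.1 ∉ q.C true a ∧ x.2 ∉ q.C false a}

theorem rect_eq {q p : Cond Om} (h : q ≤ p) {a : Om} (ha : a < p.d) : rect q a = rect p a := by
  unfold rect
  rw [h.2.2.1 true a ha, h.2.2.1 false a ha]

/-- the name of the sequence of rectangles -/
def RN (a : Om) (X : Set (ℕ × ℕ)) : Set (Cond Om) := {q | a < q.d ∧ X = rect q a}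

theorem mem_meets_RN {p : Cond Om} {a : Om} (ha : a < p.d) {X : Set (ℕ × ℕ)}
    (h : p ∈ meets (RN a X)) : X = rect p a := by
  obtain ⟨r, hr, s, hs, hrs⟩ := h p le_rfl
  rw [← rect_eq hr ha, rect_eq hrs hs.1]
  exact hs.2

theorem meets_RN {p : Cond Om} {a : Om} (ha : a < p.d) : p ∈ meets (RN a (rect p a)) :=
  fun q hq => ⟨q, le_rfl, p, ⟨ha, rfl⟩, hq⟩

theorem rect_mem {p : Cond Om} {a : Om} (ha : a < p.d) :
    p ∈ InProd (UN Om true) (UN Om false) (rect p a) := by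
  refine mem_fex.2 fun q hq => ⟨q, le_rfl, (p.C true a)ᶜ,
    meets_UN_of_mem (F_mono hq (compl_mem_F ha)), fun n => ?_⟩
  refine fiff_of_decided (fun _ h _ _ => h) (down_meets _) ?_
  by_cases hn : n ∈ (p.C true a)ᶜ
  · refine Or.inl ⟨hn, meets_UN_of_mem (F_mono hq (F_up (compl_mem_F ha) ?_))⟩
    exact fun m hm => ⟨hn, hm⟩
  · refine Or.inr ⟨fun _ _ h => hn h, fun r _ h => ?_⟩
    obtain ⟨r', _, h1⟩ := mem_meets_UN.1 h r le_rfl
    obtain ⟨m, hm⟩ := (F_infinite h1).nonempty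
    exact hn hm.1

include hGrow hClosed hOrth hOm in
theorem isTop_prod (p : Cond Om) : p ∈ IsTop (InProd (UN Om true) (UN Om false)) := by
  have hσ : SigmaClosed (Cond Om) := fun s hs => hClosed hOm s hs
  refine mem_fex.2 fun p' _ => ⟨p', le_rfl, RN, ⟨?_, ?_⟩, ?_, ?_⟩
  · intro a
    refine mem_fex.2 fun q _ => ?_
    obtain ⟨r, hr, h1⟩ := exists_longer hGrow hClosed hOm a q
    exact ⟨r, hr, rect r a, meets_RN h1⟩
  · intro a X X'
    refine mem_fimp.2 fun q _ h => ?_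
    obtain ⟨r, hr, h1⟩ := exists_longer hGrow hClosed hOm a q
    refine ⟨r, hr, ?_⟩
    change X = X'
    rw [mem_meets_RN h1 (down_meets _ _ h.1 _ hr), mem_meets_RN h1 (down_meets _ _ h.2 _ hr)]
  · intro a X
    refine mem_fimp.2 fun q _ h => ?_
    obtain ⟨r, hr, h1⟩ := exists_longer hGrow hClosed hOm a q
    refine ⟨r, hr, ?_⟩
    rw [mem_meets_RN h1 (down_meets _ _ h _ hr)]
    exact rect_mem h1
  · intro I
    refine fimp_of fun q _ hI => ?_
    intro q' hq' hq''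
    obtain ⟨r, hr, X, hX, hX'⟩ := mem_fex.1 hq'' q' le_rfl
    -- a countable infinite set of elements of `I`
    have step : ∀ (G : Finset Om) (s : Cond Om), s ≤ r → ∃ t ≤ s, ∃ a ∉ G,
        t ∈ meets (I a) ∧ a < t.d := by
      intro G s hs
      obtain ⟨t, ht, a, ha, h1⟩ := mem_fex.1 (hI G) s (hs.trans (hr.trans hq'))
      obtain ⟨t', ht', h2⟩ := exists_longer hGrow hClosed hOm a t
      exact ⟨t', ht'.trans ht, a, ha, down_meets _ _ h1 _ ht', h2⟩
    choose f hf g hg hg' hg'' using step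
    let s : ℕ → Finset Om × {t : Cond Om // t ≤ r} := fun n => Nat.rec (∅, ⟨r, le_rfl⟩)
      (fun _ x => (insert (g x.1 x.2.1 x.2.2) x.1,
        ⟨f x.1 x.2.1 x.2.2, (hf x.1 x.2.1 x.2.2).trans x.2.2⟩)) n
    let a : ℕ → Om := fun n => g (s n).1 (s n).2.1 (s n).2.2
    have hs : ∀ n, (s (n + 1)).2.1 ≤ (s n).2.1 := fun n => hf _ _ (s n).2.2
    have hs1 : ∀ n, (s (n + 1)).1 = insert (a n) (s n).1 := fun n => rfl
    have hmono : ∀ m n, m ≤ n → (s m).1 ⊆ (s n).1 := by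
      intro m n h
      induction h with
      | refl => exact Finset.Subset.refl _
      | step h ih => exact ih.trans (by rw [hs1]; exact Finset.subset_insert _ _)
    have hainj : Function.Injective a := by
      have h1 : ∀ m n, m < n → a m ≠ a n := by
        intro m n hmn h
        have h2 : a m ∈ (s n).1 := hmono (m + 1) n hmn (by
          rw [hs1]; exact Finset.mem_insert_self _ _)
        rw [h] at h2
        exact hg _ _ (s n).2.2 h2
      intro m n h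
      rcases lt_trichotomy m n with h2 | h2 | h2
      · exact absurd h (h1 m n h2)
      · exact h2
      · exact absurd h.symm (h1 n m h2)
    obtain ⟨t, ht⟩ := hσ (fun n => (s n).2.1) hs
    have htr : t ≤ r := ht 0
    have hat : ∀ n, a n < t.d := fun n =>
      (hg'' _ _ (s n).2.2).trans_le (ht (n + 1)).1
    have haI : ∀ n, t ∈ meets (I (a n)) := fun n =>
      down_meets _ _ (hg' _ _ (s n).2.2) _ (ht (n + 1))
    have hXa : ∀ n, X ⊆ rect t (a n) := by
      intro n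
      obtain ⟨_, _, h1⟩ := mem_fimp.1 (hX' (a n) (rect t (a n))) t htr
        ⟨haI n, meets_RN (hat n)⟩
      exact h1
    -- the sections
    obtain ⟨v, hv, Z, hZ, hZ'⟩ := mem_fex.1 hX t htr
    obtain ⟨v1, hv1, h1⟩ := mem_meets_UN.1 hZ v le_rfl
    have hsec : ∀ n ∈ Z, ∀ w ≤ v, ∃ w' ≤ w, {m | (n, m) ∈ X} ∈ F false w' := by
      intro n hn w hw
      obtain ⟨w1, hw1, h2⟩ := mem_fimp.1 (hZ' n).1 w hw hn
      obtain ⟨w2, hw2, h3⟩ := mem_meets_UN.1 h2 w1 le_rfl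
      exact ⟨w2, hw2.trans hw1, h3⟩
    obtain ⟨n₀, hn₀⟩ := (F_infinite h1).nonempty
    obtain ⟨v2, hv2, h2⟩ := hsec n₀ hn₀ v1 hv1
    have hv2t : v2 ≤ t := hv2.trans (hv1.trans hv)
    refine hOrth hOm v2 (range a) (infinite_range_of_injective hainj) ?_ ?_
    · rintro _ ⟨n, rfl⟩
      exact (hat n).trans_le hv2t.1
    · intro b
      cases b with
      | false =>
        refine ⟨_, h2, ?_⟩
        rintro _ ⟨n, rfl⟩
        rw [Set.disjoint_left]
        intro m hm hm'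
        have h3 := (hXa n hm).2
        rw [hv2t.2.2.1 false _ (hat n)] at hm'
        exact h3 hm'
      | true =>
        refine ⟨Z, F_mono hv2 h1, ?_⟩
        rintro _ ⟨n, rfl⟩
        rw [Set.disjoint_left]
        intro k hk hk'
        obtain ⟨w, _, h3⟩ := hsec k hk v le_rfl
        obtain ⟨m, hm⟩ := (F_infinite h3).nonempty
        rw [hv2t.2.2.1 true _ (hat n)] at hk'
        exact (hXa n hm).1 hk'

end

theorem counterexample (hGrow : TaskGrow Om) (hClosed : TaskClosed Om) (hOrth : TaskOrth Om)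
    (hDec : TaskDecide Om) (hMain : TaskMain Om) (hOm : OmegaOneLike Om) (p : Cond Om) :
    p ∈ Counterexample (Cond Om) :=
  mem_fex.2 fun q _ => ⟨q, le_rfl, UN Om true, mem_fex.2 fun r _ => ⟨r, le_rfl, UN Om false,
    isUltra hDec true r, isUltra hDec false r, not_isTop hMain hOm true r,
    not_isTop hMain hOm false r, isTop_prod hGrow hClosed hOrth hOm r⟩⟩

theorem final (hGrow : TaskGrow Om) (hClosed : TaskClosed Om) (hOrth : TaskOrth Om)
    (hDec : TaskDecide Om) (hMain : TaskMain Om) (hInit : TaskInit Om) (hOm : OmegaOneLike Om)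
    (hCH : Cardinal.aleph 1 = Cardinal.continuum.{0}) :
    ∃ (P : Type) (_ : Preorder P), Nonempty P ∧ ∀ p : P,
      p ∈ OmegaOnePreserved P ∧ p ∈ CHHolds P ∧ p ∈ NoNewReals P ∧ p ∈ Counterexample P := by
  have hσ : SigmaClosed (Cond Om) := fun s hs => hClosed hOm s hs
  exact ⟨Cond Om, inferInstance, hInit hOm, fun p => ⟨omegaOnePreserved_of hσ p,
    chHolds_of hσ hCH p, noNewReals_of hσ p,
    counterexample hGrow hClosed hOrth hDec hMain hOm p⟩⟩

end Pool.Agent.H282R3.FP
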