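import Pool.Agent.H282R3.FP.Stmts
import Pool.Agent.H282R3.TT.Basic

/-! Task Grow. -/

set_option autoImplicit false

namespace Pool.Agent.H282R3.FP

open Set

variable {W : Type} [LinearOrder W]

theorem countable_fins {C : Set W} (hC : C.Countable) :
    {t : Finset W | (↑t : Set W) ⊆ C}.Countable := by
  refine ((countable_ofPred_finite_subset hC).preimage_of_injOn
    (f := fun t : Finset W => (↑t : Set W)) Finset.coe_injective.injOn).mono ?_
  intro t ht
  exact ⟨t.finite_toSet, ht⟩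

theorem exists_D (hW : OmegaOneLike W) (p : Cond W) (b : Bool) : ∃ D : Set ℕ,
    ∀ A ∈ p.Y b, ∀ t : Finset W, (∀ x ∈ t, x < p.d) → (A ∩ ⋂ x ∈ t, p.C b x).Infinite →
      ((A ∩ ⋂ x ∈ t, p.C b x) ∩ D).Infinite ∧ ((A ∩ ⋂ x ∈ t, p.C b x) ∩ Dᶜ).Infinite := by
  let F : Set (Set ℕ) := {A' | A'.Infinite ∧ A' ∈
    (fun x : Set ℕ × Finset W => x.1 ∩ ⋂ c ∈ x.2, p.C b c) ''
      (p.Y b ×ˢ {t : Finset W | (↑t : Set W) ⊆ Iio p.d})}
  have hF : F.Countable := by
    have h1 : ((fun x : Set ℕ × Finset W => x.1 ∩ ⋂ c ∈ x.2, p.C b c) ''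
      (p.Y b ×ˢ {t : Finset W | (↑t : Set W) ⊆ Iio p.d})).Countable :=
      Countable.image ((p.hY b).prod (countable_fins (hW.countable p.d))) _
    exact h1.mono fun A hA => hA.2
  obtain ⟨D, hD⟩ := Pool.Agent.H282R3.TT.exists_split F hF (fun A hA => hA.1)
  exact ⟨D, fun A hA t ht h => hD _ ⟨h, (A, t), ⟨hA, fun x hx => ht x (Finset.mem_coe.1 hx)⟩, rfl⟩⟩

theorem taskGrow : TaskGrow W := by
  classical
  intro hW p
  obtain ⟨w, hw⟩ := hW.bdd {p.d} (countable_singleton _)
  have hne : ({x : W | p.d < x} : Set W).Nonempty := ⟨w, hw p.d rfl⟩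
  have hwf := hW.wf.wf
  obtain ⟨e, he, hmin⟩ : ∃ e, p.d < e ∧ ∀ x, x < e → x ≤ p.d := by
    refine ⟨hwf.min {x : W | p.d < x} hne, hwf.min_mem _ hne, ?_⟩
    intro x hx
    by_contra hcon
    push Not at hcon
    exact hwf.not_lt_min {x : W | p.d < x} hcon hx
  choose D hD using exists_D hW p
  have hlim : ∀ (E : Set W) (l : W), E ⊆ Iio p.d → IsLim (insert p.d E) l → IsLim E l := by
    intro E l hE hl
    refine ⟨hl.1, fun g hg => ?_⟩
    have hle : l ≤ p.d := by
      by_contra hcon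
      push Not at hcon
      obtain ⟨x, hx, h1, _⟩ := hl.2 _ hcon
      rcases hx with rfl | hx
      · exact lt_irrefl _ h1
      · exact absurd (mem_Iio.1 (hE hx)) (not_lt.2 h1.le)
    obtain ⟨x, hx, h1, h2⟩ := hl.2 g hg
    rcases hx with rfl | hx
    · exact absurd h2 (not_lt.2 hle)
    · exact ⟨x, hx, h1, h2⟩
  let q : Cond W :=
    { d := e
      s := p.s
      C := fun b x => if x = p.d then D b else p.C b x
      Y := fun b => p.Y b ∪ range (fun n => p.A b n \ D b)
      A := fun b n => p.A b n \ D b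
      E := fun b n => insert p.d (p.E b n)
      hY := fun b => (p.hY b).union (countable_range _)
      hA := fun b n => Or.inr ⟨n, rfl⟩
      hE := fun b n => insert_subset (mem_Iio.2 he)
        (fun x hx => mem_Iio.2 ((mem_Iio.1 (p.hE b n hx)).trans he))
      hs := fun b n l hl => p.hs b n l (hlim _ l (p.hE b n) hl)
      hw := by
        intro b n t ht
        have h1 : ∀ x ∈ t, x < p.d ∧ x ∉ p.E b n := by
          intro x hx
          obtain ⟨h2, h3⟩ := ht x hx
          rw [mem_insert_iff, not_or] at h3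
          exact ⟨lt_of_le_of_ne (hmin x h2) h3.1, h3.2⟩
        refine (hD b _ (p.hA b n) t (fun x hx => (h1 x hx).1) (p.hw b n t h1)).2.mono ?_
        rintro y ⟨⟨hy, hy'⟩, hy''⟩
        refine ⟨⟨hy, hy''⟩, ?_⟩
        simp only [mem_iInter] at hy' ⊢
        intro x hx
        rw [if_neg (h1 x hx).1.ne]
        exact hy' x hx
      hC := by
        intro b x hx
        by_cases hxd : x = p.d
        · refine ⟨0, fun n _ => ?_⟩
          rw [if_pos hxd]
          refine Set.finite_empty.subset ?_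
          rintro y ⟨hy, hy'⟩
          exact hy.2 hy'
        · obtain ⟨N, hN⟩ := p.hC b x (lt_of_le_of_ne (hmin x hx) hxd)
          refine ⟨N, fun n hn => ?_⟩
          rw [if_neg hxd]
          exact (hN n hn).subset (inter_subset_inter_left _ sdiff_subset) }
  refine ⟨q, ?_, he⟩
  rw [Cond.le_def]
  refine ⟨he.le, fun x _ => rfl, ?_, fun b => subset_union_left, ?_, ?_⟩
  · intro b x hx
    exact if_neg hx.ne
  · intro b A hA E hE t ht
    have h1 : ∀ x ∈ t.erase p.d, x < p.d ∧ x ∉ E := by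
      intro x hx
      rw [Finset.mem_erase] at hx
      obtain ⟨h2, h3⟩ := ht x hx.2
      exact ⟨lt_of_le_of_ne (hmin x h2) hx.1, h3⟩
    refine (hD b A hA _ (fun x hx => (h1 x hx).1) (hE _ h1)).1.mono ?_
    rintro y ⟨⟨hy, hy'⟩, hy''⟩
    refine ⟨hy, ?_⟩
    simp only [mem_iInter, Finset.mem_erase] at hy' ⊢
    intro x hx
    by_cases hxd : x = p.d
    · show y ∈ (if x = p.d then D b else p.C b x)
      rw [if_pos hxd]
      exact hy''
    · show y ∈ (if x = p.d then D b else p.C b x)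
      rw [if_neg hxd]
      exact hy' x ⟨hxd, hx⟩
  · intro b k
    refine ⟨k, fun m hm => ⟨m, hm, ?_, ?_⟩⟩
    · refine Set.finite_empty.subset ?_
      rintro y ⟨hy, hy'⟩
      exact hy' hy.1
    · ext x
      constructor
      · rintro ⟨hx | hx, hx'⟩
        · exact absurd (mem_Iio.1 hx') (by rw [hx]; exact lt_irrefl _)
        · exact hx
      · intro hx
        exact ⟨Or.inr hx, p.hE b m hx⟩

end Pool.Agent.H282R3.FP
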