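import Pool.Agent.H282R3.FP.Grow
import Pool.Agent.H282R3.FP.CH

/-! Extending a condition by one step with a prescribed value of `s` (after helper351's Grow). -/

set_option autoImplicit false

namespace Pool.Agent.H282R3.FP

open Set

variable {W : Type} [LinearOrder W]

/-- extending by one step with a prescribed value of `s` -/
theorem exists_growS (hW : OmegaOneLike W) (p : Cond W) (c : Bool) :
    ∃ q ≤ p, (p.d < q.d ∧ ∀ x, x < q.d → x ≤ p.d) ∧ q.s q.d = c := by
  classical
  obtain ⟨w, hw⟩ := hW.bdd {p.d} (countable_singleton _)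
  have hne : ({x : W | p.d < x} : Set W).Nonempty := ⟨w, hw p.d rfl⟩
  have hwf := hW.wf.wf
  obtain ⟨e, he, hmin⟩ : ∃ e, p.d < e ∧ ∀ x, x < e → x ≤ p.d := by
    refine ⟨hwf.min {x : W | p.d < x} hne, hwf.min_mem _ hne, ?_⟩
    intro x hx
    by_contra hcon
    push Not at hcon
    exact hwf.not_lt_min {x : W | p.d < x} hcon hx
  choose D hD using exists_D hW p
  have hlim : ∀ (E : Set W) (l : W), E ⊆ Iio p.d → IsLim (insert p.d E) l → IsLim E l := by
    intro E l hE hl
    refine ⟨hl.1, fun g hg => ?_⟩
    have hle : l ≤ p.d := by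
      by_contra hcon
      push Not at hcon
      obtain ⟨x, hx, h1, _⟩ := hl.2 _ hcon
      rcases hx with rfl | hx
      · exact lt_irrefl _ h1
      · exact absurd (mem_Iio.1 (hE hx)) (not_lt.2 h1.le)
    obtain ⟨x, hx, h1, h2⟩ := hl.2 g hg
    rcases hx with rfl | hx
    · exact absurd h2 (not_lt.2 hle)
    · exact ⟨x, hx, h1, h2⟩
  let q : Cond W :=
    { d := e
      s := fun x => if x = e then c else p.s x
      C := fun b x => if x = p.d then D b else p.C b x
      Y := fun b => p.Y b ∪ range (fun n => p.A b n \ D b)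
      A := fun b n => p.A b n \ D b
      E := fun b n => insert p.d (p.E b n)
      hY := fun b => (p.hY b).union (countable_range _)
      hA := fun b n => Or.inr ⟨n, rfl⟩
      hE := fun b n => insert_subset (mem_Iio.2 he)
        (fun x hx => mem_Iio.2 ((mem_Iio.1 (p.hE b n hx)).trans he))
      hs := by
        intro b n l hl
        have h1 := hlim _ l (p.hE b n) hl
        have hle : l ≤ p.d := by
          by_contra hcon
          push Not at hcon
          obtain ⟨x, hx, h1, _⟩ := h1.2 _ hcon
          exact absurd (mem_Iio.1 (p.hE b n hx)) (not_lt.2 h1.le)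
        change (if l = e then c else p.s l) = b
        rw [if_neg (hle.trans_lt he).ne]
        exact p.hs b n l h1
      hw := by
        intro b n t ht
        have h1 : ∀ x ∈ t, x < p.d ∧ x ∉ p.E b n := by
          intro x hx
          obtain ⟨h2, h3⟩ := ht x hx
          rw [mem_insert_iff, not_or] at h3
          exact ⟨lt_of_le_of_ne (hmin x h2) h3.1, h3.2⟩
        refine (hD b _ (p.hA b n) t (fun x hx => (h1 x hx).1) (p.hw b n t h1)).2.mono ?_
        rintro y ⟨⟨hy, hy'⟩, hy''⟩
        refine ⟨⟨hy, hy''⟩, ?_⟩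
        simp only [mem_iInter] at hy' ⊢
        intro x hx
        rw [if_neg (h1 x hx).1.ne]
        exact hy' x hx
      hC := by
        intro b x hx
        by_cases hxd : x = p.d
        · refine ⟨0, fun n _ => ?_⟩
          rw [if_pos hxd]
          refine Set.finite_empty.subset ?_
          rintro y ⟨hy, hy'⟩
          exact hy.2 hy'
        · obtain ⟨N, hN⟩ := p.hC b x (lt_of_le_of_ne (hmin x hx) hxd)
          refine ⟨N, fun n hn => ?_⟩
          rw [if_neg hxd]
          exact (hN n hn).subset (inter_subset_inter_left _ sdiff_subset) }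
  refine ⟨q, ?_, ⟨he, hmin⟩, if_pos rfl⟩
  rw [Cond.le_def]
  refine ⟨he.le, fun x hx => if_neg (hx.trans_lt he).ne, ?_, fun b => subset_union_left, ?_, ?_⟩
  · intro b x hx
    exact if_neg hx.ne
  · intro b A hA E hE t ht
    have h1 : ∀ x ∈ t.erase p.d, x < p.d ∧ x ∉ E := by
      intro x hx
      rw [Finset.mem_erase] at hx
      obtain ⟨h2, h3⟩ := ht x hx.2
      exact ⟨lt_of_le_of_ne (hmin x h2) hx.1, h3⟩
    refine (hD b A hA _ (fun x hx => (h1 x hx).1) (hE _ h1)).1.mono ?_
    rintro y ⟨⟨hy, hy'⟩, hy''⟩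
    refine ⟨hy, ?_⟩
    simp only [mem_iInter, Finset.mem_erase] at hy' ⊢
    intro x hx
    by_cases hxd : x = p.d
    · show y ∈ (if x = p.d then D b else p.C b x)
      rw [if_pos hxd]
      exact hy''
    · show y ∈ (if x = p.d then D b else p.C b x)
      rw [if_neg hxd]
      exact hy' x ⟨hxd, hx⟩
  · intro b k
    refine ⟨k, fun m hm => ⟨m, hm, ?_, ?_⟩⟩
    · refine Set.finite_empty.subset ?_
      rintro y ⟨hy, hy'⟩
      exact hy' hy.1
    · ext x
      constructor
      · rintro ⟨hx | hx, hx'⟩
        · exact absurd (mem_Iio.1 hx') (by rw [hx]; exact lt_irrefl _)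
        · exact hx
      · intro hx
        exact ⟨Or.inr hx, p.hE b m hx⟩

theorem growS (hOm : OmegaOneLike Pool.Agent.Helper292.ForceCH.Om) : GrowS := by
  intro p c
  obtain ⟨q, hq, ⟨h1, h2⟩, h3⟩ := exists_growS hOm p c
  refine ⟨q, hq, le_antisymm ?_ ?_, h3⟩
  · by_contra hcon
    push Not at hcon
    exact absurd (lt_nx p.d) (not_lt.2 (h2 _ hcon))
  · by_contra hcon
    push Not at hcon
    exact absurd h1 (not_lt.2 (le_of_lt_nx hcon))

end Pool.Agent.H282R3.FP
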