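import Pool.Agent.H282R3.FP.Stmts

/-!
# TaskMain of project H282FP (helper54)
-/

set_option autoImplicit false

namespace Pool.Agent.H282R3.FP

open Set

namespace Main54

variable {W : Type} [LinearOrder W]

/-- the statement of `newPoints` -/
def NPts (W : Type) [LinearOrder W] (b : Bool) (τ : Name W b) : Prop :=
  ∀ (k : ℕ) (P : ℕ → Set ℕ) (m : ℕ) (L : List (ℕ × Finset W)) (p : Cond W)
    (σ : ℕ → Set ℕ × Set W) (G : Finset ℕ), (∀ j < k, ColOK b p (σ j)) → VeryGood τ p k σ G →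
    (∀ j < k, ((σ j).1 \ P j).Finite) →
    (∀ a ∈ L, a.1 < k ∧ ∀ x ∈ a.2, x < p.d ∧ x ∉ (σ a.1).2) →
    ∃ q ≤ p, ∃ σ' : ℕ → Set ℕ × Set W, ∃ G' : Finset ℕ,
      (∀ j < k, ColOK b q (σ' j) ∧ Ext p.d (σ' j) (σ j)) ∧ VeryGood τ q k σ' G' ∧ G ⊆ G' ∧
      (∀ x ∈ G', x ∈ G ∨ ∃ j < k, x ∈ P j) ∧
      ∀ a ∈ L, ∃ x ∈ G', m ≤ x ∧ x ∈ P a.1 ∧ ∀ ξ ∈ a.2, x ∈ p.C b ξ

/-- the state of the construction -/
structure St (W : Type) [LinearOrder W] where
  p : Cond W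
  σ : ℕ → Set ℕ × Set W
  G : Finset ℕ
  β : ℕ → W
  B : ℕ → Set ℕ
  h : ℕ → Cond W × (ℕ → Set ℕ × Set W)

structure Inv (b : Bool) (τ : Name W b) (i : ℕ) (x : St W) : Prop where
  hist : ∀ a < i, x.p ≤ (x.h a).1 ∧ ∀ j < a, Ext (x.h a).1.d (x.σ j) ((x.h a).2 j)
  good : VeryGood τ x.p i x.σ x.G
  val : ∀ l < i, τ.v x.p (x.β l) (x.B l)
  sub : ∀ l < i, (↑x.G : Set ℕ) ⊆ x.B l
  mem : ∀ l < i, x.B l ∈ F b x.p
  fin : ∀ l < i, ∀ j < i, ((x.σ j).1 \ x.B l).Finite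
  inj : ∀ l < i, ∀ l' < i, x.β l = x.β l' → l = l'

structure Phi (b : Bool) (en : W → ℕ → Finset W) (i : ℕ) (x x' : St W) : Prop where
  h1 : ∀ a < i, x'.h a = x.h a
  h2 : x'.h i = (x.p, x.σ)
  h3 : ∀ l < i, x'.β l = x.β l ∧ x'.B l = x.B l
  h4 : x.G ⊆ x'.G
  h5 : ∀ a < i + 1, ∀ j < a, ∀ n < i + 1,
    (∀ ξ ∈ en (x'.h a).1.d n, ξ ∉ ((x'.h a).2 j).2) →
    ∃ y ∈ x'.G, i ≤ y ∧ y ∈ ((x'.h a).2 j).1 ∧ ∀ ξ ∈ en (x'.h a).1.d n, y ∈ (x'.h a).1.C b ξ

theorem ext_refl {b : Bool} {p : Cond W} {c : Set ℕ × Set W} (h : ColOK b p c) : Ext p.d c c :=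
  (h.carry le_rfl).2

theorem fin_trans {A B C : Set ℕ} (h1 : (A \ B).Finite) (h2 : (B \ C).Finite) :
    (A \ C).Finite := by
  refine (h1.union h2).subset ?_
  intro x hx
  by_cases h : x ∈ B
  · exact Or.inr ⟨h, hx.2⟩
  · exact Or.inl ⟨hx.1, h⟩

/-- new column and new value -/
theorem stepAB (hNC : TaskNewCol W) (hW : OmegaOneLike W) {b : Bool} {τ : Name W b} {i : ℕ}
    {x : St W} (n₀ : ℕ) (hI : Inv b τ i x) (hc : ∀ j < i, ColOK b x.p (x.σ j)) :
    ∃ r ≤ x.p, ∃ σ : ℕ → Set ℕ × Set W, ∃ (β : W) (B : Set ℕ),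
      (∀ j < i + 1, ColOK b r (σ j)) ∧ (∀ j < i, Ext x.p.d (σ j) (x.σ j)) ∧
      (∃ n ≥ n₀, Ext x.p.d (σ i) (x.p.col b n)) ∧ VeryGood τ r (i + 1) σ x.G ∧
      τ.v r β B ∧ (↑x.G : Set ℕ) ⊆ B ∧ B ∈ F b r ∧ (∀ j < i + 1, ((σ j).1 \ B).Finite) ∧
      (∀ l < i, β ≠ x.β l) ∧ ∀ l < i, ((σ i).1 \ x.B l).Finite := by
  classical
  -- large n
  have h1 : ∀ l, ∃ N, l < i → ∀ n ≥ N, (x.p.A b n \ x.B l).Finite := by
    intro l
    by_cases hl : l < i
    · obtain ⟨N, hN⟩ := hI.mem l hl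
      exact ⟨N, fun _ => hN⟩
    · exact ⟨0, fun h => absurd h hl⟩
  choose N hN using h1
  obtain ⟨q, hq, σ1, hσ1, n, ⟨n', hn', hext⟩, hvg⟩ := hNC hW b τ x.p i x.σ x.G hc hI.good
    (n₀ + ∑ l ∈ Finset.range i, N l)
  have hn'' : ∀ l < i, N l ≤ n' := by
    intro l hl
    have h2 : N l ≤ ∑ l ∈ Finset.range i, N l :=
      Finset.single_le_sum (fun _ _ => Nat.zero_le _) (Finset.mem_range.2 hl)
    omega
  have hok : ∀ j < i + 1, ColOK b q (if j < i then σ1 j else q.col b n) := by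
    intro j hj
    by_cases hji : j < i
    · rw [if_pos hji]; exact (hσ1 j hji).1
    · rw [if_neg hji]; exact q.colOK b n
  have hgood := hvg.good hok
  have hfinβ : {β : W | ∃ l < i, β = x.β l}.Countable := by
    apply Set.Finite.countable
    refine ((Finset.range i).finite_toSet.image x.β).subset ?_
    rintro β ⟨l, hl, rfl⟩
    exact ⟨l, by simpa using hl, rfl⟩
  obtain ⟨β, ⟨r, hr, B, hv, hGB, σ3, hσ3⟩, hβ⟩ : ∃ β, β ∈ {β : W | ∃ r ≤ q, ∃ B, τ.v r β B ∧ (↑x.G : Set ℕ) ⊆ B ∧ ∃ σ' : ℕ → Set ℕ × Set W,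
      ∀ j < i + 1, ColOK b r (σ' j) ∧ (σ' j).1 ⊆ B ∧ Ext q.d (σ' j) (if j < i then σ1 j else q.col b n)} ∧
      β ∉ {β : W | ∃ l < i, β = x.β l} := by
    by_contra hcon
    push Not at hcon
    exact hgood (hfinβ.mono hcon)
  obtain ⟨r', hr', hBr'⟩ := τ.mem r β B hv
  refine ⟨r', (hr'.trans hr).trans hq, σ3, β, B, ?_, ?_, ?_, ?_, ?_, hGB, hBr', ?_, ?_, ?_⟩
  · intro j hj
    exact ((hσ3 j hj).1.carry hr').1
  · intro j hj
    have h2 := (hσ3 j (by omega)).2.2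
    rw [if_pos hj] at h2
    exact h2.trans hq.1 (hσ1 j hj).2
  · have h2 := (hσ3 i (by omega)).2.2
    rw [if_neg (lt_irrefl i)] at h2
    exact ⟨n', by omega, h2.trans hq.1 hext⟩
  · exact hvg.weaken (hr'.trans hr) fun j hj => (hσ3 j hj).2.2
  · exact τ.mono _ _ _ _ hr' hv
  · intro j hj
    rw [Set.sdiff_eq_empty.2 (hσ3 j hj).2.1]
    exact Set.finite_empty
  · intro l hl h
    exact hβ ⟨l, hl, h⟩
  · intro l hl
    have h2 := (hσ3 i (by omega)).2.2
    rw [if_neg (lt_irrefl i)] at h2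
    exact fin_trans (h2.trans hq.1 hext).1 (hN l hl n' (hn'' l hl))

/-- the step of the construction -/
theorem step (hW : OmegaOneLike W) (hG : TaskGrow W) (hNC : TaskNewCol W) {b : Bool}
    {τ : Name W b} (hNP : NPts W b τ) (en : W → ℕ → Finset W) (hen : ∀ w n, ∀ ξ ∈ en w n, ξ < w)
    {i : ℕ} {x : St W} (n₀ : ℕ) (hI : Inv b τ i x) (hc : ∀ j < i, ColOK b x.p (x.σ j)) :
    ∃ x' : St W, x'.p ≤ x.p ∧ x.p.d < x'.p.d ∧
      (∀ j < i, ColOK b x'.p (x'.σ j) ∧ Ext x.p.d (x'.σ j) (x.σ j)) ∧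
      ColOK b x'.p (x'.σ i) ∧ (∃ n ≥ n₀, Ext x.p.d (x'.σ i) (x.p.col b n)) ∧
      Inv b τ (i + 1) x' ∧ Phi b en i x x' := by
  classical
  obtain ⟨r, hr, σ, β, B, hok, hext, ⟨n, hn, hcol⟩, hvg, hv, hGB, hBr, hfB, hβ, hfi⟩ :=
    stepAB hNC hW n₀ hI hc
  obtain ⟨h', hh1, hh2⟩ : ∃ h' : ℕ → Cond W × (ℕ → Set ℕ × Set W),
      (∀ a < i, h' a = x.h a) ∧ h' i = (x.p, x.σ) :=
    ⟨Function.update x.h i (x.p, x.σ), fun a ha => Function.update_of_ne (by omega) _ _,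
      Function.update_self _ _ _⟩
  obtain ⟨β', hβ1, hβ2⟩ : ∃ β' : ℕ → W, (∀ a < i, β' a = x.β a) ∧ β' i = β :=
    ⟨Function.update x.β i β, fun a ha => Function.update_of_ne (by omega) _ _,
      Function.update_self _ _ _⟩
  obtain ⟨B', hB1, hB2⟩ : ∃ B' : ℕ → Set ℕ, (∀ a < i, B' a = x.B a) ∧ B' i = B :=
    ⟨Function.update x.B i B, fun a ha => Function.update_of_ne (by omega) _ _,
      Function.update_self _ _ _⟩
  have hist : ∀ a < i + 1, r ≤ (h' a).1 ∧ ∀ j < a, Ext (h' a).1.d (σ j) ((h' a).2 j) := by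
    intro a ha
    rcases Nat.lt_succ_iff_lt_or_eq.1 ha with h | h
    · rw [hh1 a h]
      exact ⟨hr.trans (hI.hist a h).1, fun j hj =>
        (hext j (hj.trans h)).trans (hI.hist a h).1.1 ((hI.hist a h).2 j hj)⟩
    · subst h
      rw [hh2]
      exact ⟨hr, fun j hj => hext j hj⟩
  have hfin : ∀ l < i + 1, ∀ j < i + 1, ((σ j).1 \ B' l).Finite := by
    intro l hl j hj
    rcases Nat.lt_succ_iff_lt_or_eq.1 hl with h | h
    · rw [hB1 l h]
      rcases Nat.lt_succ_iff_lt_or_eq.1 hj with h2 | h2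
      · exact fin_trans (hext j h2).1 (hI.fin l h j h2)
      · subst h2
        exact hfi l h
    · subst h
      rw [hB2]
      exact hfB j hj
  obtain ⟨P, hPdef⟩ : ∃ P : ℕ → Set ℕ, ∀ j y, y ∈ P j ↔
      (∀ a < i + 1, j < a → y ∈ ((h' a).2 j).1) ∧ ∀ l < i + 1, y ∈ B' l :=
    ⟨fun j => {y | (∀ a < i + 1, j < a → y ∈ ((h' a).2 j).1) ∧ ∀ l < i + 1, y ∈ B' l},
      fun _ _ => Iff.rfl⟩
  obtain ⟨L, hLdef⟩ : ∃ L : List (ℕ × Finset W), ∀ z, z ∈ L ↔ ∃ a < i + 1, ∃ j < a, ∃ n < i + 1,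
      (∀ ξ ∈ en (h' a).1.d n, ξ ∉ ((h' a).2 j).2) ∧ z = (j, en (h' a).1.d n) := by
    have hfs : {z : ℕ × Finset W | ∃ a < i + 1, ∃ j < a, ∃ n < i + 1,
        (∀ ξ ∈ en (h' a).1.d n, ξ ∉ ((h' a).2 j).2) ∧ z = (j, en (h' a).1.d n)}.Finite := by
      refine (((Finset.range (i + 1) ×ˢ Finset.range (i + 1) ×ˢ
        Finset.range (i + 1)).finite_toSet.image
        (fun z => (z.2.1, en (h' z.1).1.d z.2.2)))).subset ?_
      rintro z ⟨a, ha, j, hj, n, hn, _, rfl⟩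
      refine ⟨(a, j, n), ?_, rfl⟩
      simp only [Finset.coe_product, Set.mem_prod, Finset.coe_range, Set.mem_Iio]
      omega
    exact ⟨hfs.toFinset.toList, fun z => by simp⟩
  have hP : ∀ j < i + 1, ((σ j).1 \ P j).Finite := by
    intro j hj
    have hf1 : (⋃ a ∈ Set.Iio (i + 1), {y | j < a ∧ y ∈ (σ j).1 \ ((h' a).2 j).1}).Finite := by
      apply (Set.finite_Iio (i + 1)).biUnion
      intro a ha
      by_cases hja : j < a
      · exact ((hist a ha).2 j hja).1.subset fun y hy => hy.2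
      · have : {y | j < a ∧ y ∈ (σ j).1 \ ((h' a).2 j).1} = ∅ := by
          ext y
          simp [hja]
        rw [this]
        exact Set.finite_empty
    have hf2 : (⋃ l ∈ Set.Iio (i + 1), (σ j).1 \ B' l).Finite := by
      apply (Set.finite_Iio (i + 1)).biUnion
      intro l hl
      exact hfin l hl j hj
    refine (hf1.union hf2).subset ?_
    rintro y ⟨hy1, hy2⟩
    by_contra hcon
    apply hy2
    rw [hPdef]
    simp only [Set.mem_union, Set.mem_iUnion, not_or, not_exists] at hcon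
    obtain ⟨c1, c2⟩ := hcon
    constructor
    · intro a ha hja
      by_contra h3
      exact c1 a ha ⟨hja, hy1, h3⟩
    · intro l hl
      by_contra h3
      exact c2 l hl ⟨hy1, h3⟩
  have hL : ∀ z ∈ L, z.1 < i + 1 ∧ ∀ ξ ∈ z.2, ξ < r.d ∧ ξ ∉ (σ z.1).2 := by
    intro z hz
    obtain ⟨a, ha, j, hj, n, hn, hoff, rfl⟩ := (hLdef z).1 hz
    refine ⟨by omega, fun ξ hξ => ?_⟩
    have h1 := hen _ _ ξ hξ
    refine ⟨h1.trans_le (hist a ha).1.1, fun h2 => hoff ξ hξ ?_⟩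
    rw [← ((hist a ha).2 j hj).2]
    exact ⟨h2, h1⟩
  obtain ⟨q, hq, σ', G', hσ', hvg', hGG', hGP, hLp⟩ := hNP (i + 1) P i L r σ x.G hok hvg hP hL
  obtain ⟨q5, hq5, hd⟩ := hG hW q
  have hcar : ∀ j < i + 1, ColOK b q5 (σ' j) ∧ Ext r.d (σ' j) (σ j) := fun j hj =>
    ⟨((hσ' j hj).1.carry hq5).1, (hσ' j hj).2⟩
  refine ⟨⟨q5, σ', G', β', B', h'⟩, (hq5.trans hq).trans hr, ?_, ?_, ?_, ?_, ?_, ?_⟩
  · exact ((hr.1.trans hq.1).trans_lt hd)
  · intro j hj
    exact ⟨(hcar j (by omega)).1, (hcar j (by omega)).2.trans hr.1 (hext j hj)⟩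
  · exact (hcar i (by omega)).1
  · exact ⟨n, hn, (hcar i (by omega)).2.trans hr.1 hcol⟩
  · refine ⟨?_, ?_, ?_, ?_, ?_, ?_, ?_⟩
    · intro a ha
      refine ⟨(hq5.trans hq).trans (hist a ha).1, fun j hj => ?_⟩
      exact (hcar j (by omega)).2.trans (hist a ha).1.1 ((hist a ha).2 j hj)
    · exact hvg'.weaken hq5 fun j hj => ext_refl (hσ' j hj).1
    · intro l hl
      show τ.v q5 (β' l) (B' l)
      rcases Nat.lt_succ_iff_lt_or_eq.1 hl with h | h
      · rw [hβ1 l h, hB1 l h]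
        exact τ.mono _ _ _ _ ((hq5.trans hq).trans hr) (hI.val l h)
      · subst h
        rw [hβ2, hB2]
        exact τ.mono _ _ _ _ (hq5.trans hq) hv
    · intro l hl y hy
      show y ∈ B' l
      rcases hGP y hy with h | ⟨j, hj, h⟩
      · rcases Nat.lt_succ_iff_lt_or_eq.1 hl with h2 | h2
        · rw [hB1 l h2]
          exact hI.sub l h2 h
        · subst h2
          rw [hB2]
          exact hGB h
      · exact ((hPdef j y).1 h).2 l hl
    · intro l hl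
      show B' l ∈ F b q5
      rcases Nat.lt_succ_iff_lt_or_eq.1 hl with h | h
      · rw [hB1 l h]
        exact F_mono ((hq5.trans hq).trans hr) (hI.mem l h)
      · subst h
        rw [hB2]
        exact F_mono (hq5.trans hq) hBr
    · intro l hl j hj
      exact fin_trans (hcar j hj).2.1 (hfin l hl j hj)
    · intro l hl l' hl' he
      change β' l = β' l' at he
      rcases Nat.lt_succ_iff_lt_or_eq.1 hl with h | h <;>
        rcases Nat.lt_succ_iff_lt_or_eq.1 hl' with h' | h'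
      · rw [hβ1 l h, hβ1 l' h'] at he
        exact hI.inj l h l' h' he
      · subst h'
        rw [hβ1 l h, hβ2] at he
        exact absurd he.symm (hβ l h)
      · subst h
        rw [hβ1 l' h', hβ2] at he
        exact absurd he (hβ l' h')
      · rw [h, h']
  · refine ⟨hh1, hh2, fun l hl => ⟨hβ1 l hl, hB1 l hl⟩, hGG', ?_⟩
    intro a ha j hj n hn hoff
    obtain ⟨y, hy1, hy2, hy3, hy4⟩ := hLp (j, en (h' a).1.d n)
      ((hLdef _).2 ⟨a, ha, j, hj, n, hn, hoff, rfl⟩)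
    refine ⟨y, hy1, hy2, ((hPdef j y).1 hy3).1 a ha hj, fun ξ hξ => ?_⟩
    have h1 := hen _ _ ξ hξ
    rw [← (hist a ha).1.2.2.1 b ξ h1]
    exact hy4 ξ hξ

theorem enum (hW : OmegaOneLike W) : ∃ en : W → ℕ → Finset W, (∀ w n, ∀ ξ ∈ en w n, ξ < w) ∧
    ∀ w (t : Finset W), (∀ ξ ∈ t, ξ < w) → ∃ n, en w n = t := by
  have h1 : ∀ w : W, ∃ f : ℕ → Finset W, {t : Finset W | ∀ ξ ∈ t, ξ < w} = Set.range f := by
    intro w
    apply Set.Countable.exists_eq_range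
    · have h2 := Set.countable_ofPred_finite_subset (hW.countable w)
      have h3 := h2.preimage_of_injOn (f := fun t : Finset W => (↑t : Set W))
        (Finset.coe_injective.injOn)
      refine h3.mono ?_
      intro t ht
      exact ⟨t.finite_toSet, fun ξ hξ => ht ξ hξ⟩
    · exact ⟨∅, by simp⟩
  choose en hen using h1
  refine ⟨en, fun w n => ?_, fun w t ht => ?_⟩
  · have : en w n ∈ {t : Finset W | ∀ ξ ∈ t, ξ < w} := by rw [hen w]; exact ⟨n, rfl⟩
    exact this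
  · have : t ∈ Set.range (en w) := by rw [← hen w]; exact ht
    exact this

theorem main_of (hW : OmegaOneLike W) (hG : TaskGrow W) (hL : TaskLimit W) (hPI : TaskPI W)
    (hS : TaskSeq W) (hNC : TaskNewCol W) (b : Bool) (τ : Name W b) (hNP : NPts W b τ)
    (p : Cond W) : ∃ q ≤ p, ∃ I : Set W, I.Infinite ∧ I.Countable ∧ ∃ B : W → Set ℕ,
    (∀ β ∈ I, τ.v q β (B β)) ∧ (⋂ β ∈ I, B β) ∈ F b q := by
  classical
  obtain ⟨en, hen1, hen2⟩ := enum hW
  let x₀ : St W := ⟨p, fun _ => (∅, ∅), ∅, fun _ => p.d, fun _ => ∅, fun _ => (p, fun _ => (∅, ∅))⟩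
  have hI0 : Inv b τ 0 x₀ := by
    refine ⟨fun a ha => absurd ha (by omega), ?_, fun a ha => absurd ha (by omega),
      fun a ha => absurd ha (by omega), fun a ha => absurd ha (by omega),
      fun a ha => absurd ha (by omega), fun a ha => absurd ha (by omega)⟩
    intro q hq σ' _ hc
    have huniv : (Set.univ : Set W).Countable := by
      refine hc.mono ?_
      intro β _
      obtain ⟨r, hr, B, hB⟩ := τ.tot q β
      refine ⟨r, hr, B, hB, ?_, σ', fun j hj => absurd hj (by omega)⟩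
      show (↑(∅ : Finset ℕ) : Set ℕ) ⊆ B
      simp
    obtain ⟨w, hw⟩ := hW.bdd _ huniv
    exact lt_irrefl w (hw w (Set.mem_univ w))
  obtain ⟨x, hx0, hInv, hPhi, hFus⟩ := hS (St W) (fun x => x.p) (fun x => x.σ) b 0 (Inv b τ)
    (Phi b en) x₀ hI0 (fun j hj => absurd hj (by omega)) (by
      intro i x n₀ hI hc
      obtain ⟨x', h1, h2, h3, h4, h5, h6, h7⟩ := step hW hG hNC hNP en hen1 n₀ hI
        (fun j hj => hc j (by omega))
      exact ⟨x', h1, h2, fun j hj => h3 j (by omega), by simpa using h4, by simpa using h5,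
        h6, h7⟩)
  have hh : ∀ i a, a < i → (x i).h a = ((x a).p, (x a).σ) := by
    intro i
    induction i with
    | zero => intro a ha; omega
    | succ i ih =>
      intro a ha
      rcases Nat.lt_succ_iff_lt_or_eq.1 ha with h | h
      · rw [(hPhi i).h1 a h, ih a h]
      · rw [h, (hPhi i).h2]
  have hβ : ∀ i l, l < i → (x i).β l = (x (l + 1)).β l ∧ (x i).B l = (x (l + 1)).B l := by
    intro i
    induction i with
    | zero => intro a ha; omega
    | succ i ih =>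
      intro a ha
      rcases Nat.lt_succ_iff_lt_or_eq.1 ha with h | h
      · rw [((hPhi i).h3 a h).1, ((hPhi i).h3 a h).2]
        exact ih a h
      · rw [h]; exact ⟨rfl, rfl⟩
  have hGm : Monotone fun i => (x i).G := monotone_nat_of_le_succ fun i => (hPhi i).h4
  let Gω : Set ℕ := {y | ∃ i, y ∈ (x i).G}
  have hGB : ∀ y ∈ Gω, ∀ l, y ∈ (x (l + 1)).B l := by
    rintro y ⟨i, hy⟩ l
    have h1 : y ∈ (x (max i (l + 1))).G := hGm (le_max_left _ _) hy
    have h2 := (hInv (max i (l + 1))).sub l (by omega) h1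
    rwa [(hβ (max i (l + 1)) l (by omega)).2] at h2
  obtain ⟨X, hX1, hX2, hX3⟩ := hPI hW b 0 (fun i => (x i).p) (fun i => (x i).σ) hFus Gω (by
    intro i j hj t ht
    obtain ⟨n, hn⟩ := hen2 (x i).p.d t fun ξ hξ => (ht ξ hξ).1
    apply Set.infinite_of_forall_exists_gt
    intro m
    have hk := (hPhi (max (m + 1) (max i n))).h5 i (by omega) j (by omega) n (by omega)
    rw [hh _ i (by omega)] at hk
    simp only [hn] at hk
    obtain ⟨y, hy1, hy2, hy3, hy4⟩ := hk fun ξ hξ => (ht ξ hξ).2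
    refine ⟨y, ⟨⟨⟨_, hy1⟩, hy3⟩, ?_⟩, by omega⟩
    exact Set.mem_iInter₂.2 hy4)
  obtain ⟨q, hq, σω, h1, h2, h3, h4⟩ := hL hW b 0 (fun i => (x i).p) (fun i => (x i).σ) hFus X
    hX2 hX3
  have hinj : Function.Injective fun l => (x (l + 1)).β l := by
    intro l l' he
    have he' : (x (l + 1)).β l = (x (l' + 1)).β l' := he
    have e1 := (hβ (max (l + 1) (l' + 1)) l (by omega)).1
    have e2 := (hβ (max (l + 1) (l' + 1)) l' (by omega)).1
    exact (hInv (max (l + 1) (l' + 1))).inj l (by omega) l' (by omega)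
      (by rw [e1, e2]; exact he')
  refine ⟨q, ?_, Set.range fun l => (x (l + 1)).β l, Set.infinite_range_of_injective hinj,
    Set.countable_range _, Function.extend (fun l => (x (l + 1)).β l)
      (fun l => (x (l + 1)).B l) fun _ => ∅, ?_, ?_⟩
  · have := hq 0
    simp only [hx0] at this
    exact this
  · rintro _ ⟨l, rfl⟩
    rw [hinj.extend_apply]
    exact τ.mono _ _ _ _ (hq (l + 1)) ((hInv (l + 1)).val l (by omega))
  · refine ⟨0, fun n _ => ?_⟩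
    have e : q.A b n = X n := by
      have e1 : (q.col b n).1 = (σω (0 + n)).1 := by rw [h4 n]
      rw [h1, zero_add] at e1
      exact e1
    have : q.A b n \ (⋂ β ∈ Set.range fun l => (x (l + 1)).β l,
        Function.extend (fun l => (x (l + 1)).β l) (fun l => (x (l + 1)).B l) (fun _ => ∅) β) =
        ∅ := by
      rw [Set.sdiff_eq_empty, e]
      intro y hy
      apply Set.mem_iInter₂.2
      rintro _ ⟨l, rfl⟩
      rw [hinj.extend_apply]
      exact hGB y (hX1 n hy) l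
    rw [this]
    exact Set.finite_empty

/-- finitely many new points -/
theorem newPts (hNP : TaskNewPoint W) (hW : OmegaOneLike W) (b : Bool) (τ : Name W b) :
    NPts W b τ := by
  intro k P m L
  induction L with
  | nil =>
    intro p σ G h1 h2 _ _
    exact ⟨p, le_rfl, σ, G, fun j hj => ⟨h1 j hj, ext_refl (h1 j hj)⟩, h2, Finset.Subset.refl _,
      fun x hx => Or.inl hx, fun a ha => absurd ha (by simp)⟩
  | cons a L ih =>
    intro p σ G h1 h2 h3 h4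
    obtain ⟨ha1, ha2⟩ := h4 a (by simp)
    obtain ⟨M, hM⟩ := (h3 a.1 ha1).bddAbove
    obtain ⟨q, hq, σ1, hσ1, y, hy, hyσ, hyC, hvg⟩ :=
      hNP hW b τ p k σ G h1 h2 a.1 ha1 a.2 ha2 (max m (M + 1))
    have hyP : y ∈ P a.1 := by
      by_contra hcon
      have := hM (show y ∈ (σ a.1).1 \ P a.1 from ⟨hyσ, hcon⟩)
      omega
    obtain ⟨q', hq', σ', G', e1, e2, e3, e4, e5⟩ := ih q σ1 (insert y G)
      (fun j hj => (hσ1 j hj).1) hvg (fun j hj => fin_trans (hσ1 j hj).2.1 (h3 j hj)) (by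
        intro a' ha'
        obtain ⟨f1, f2⟩ := h4 a' (by simp [ha'])
        refine ⟨f1, fun ξ hξ => ⟨(f2 ξ hξ).1.trans_le hq.1, fun hmem => (f2 ξ hξ).2 ?_⟩⟩
        rw [← (hσ1 a'.1 f1).2.2]
        exact ⟨hmem, (f2 ξ hξ).1⟩)
    refine ⟨q', hq'.trans hq, σ', G', fun j hj => ⟨(e1 j hj).1,
      (e1 j hj).2.trans hq.1 (hσ1 j hj).2⟩, e2, (Finset.subset_insert _ _).trans e3, ?_, ?_⟩
    · intro z hz
      rcases e4 z hz with h | h
      · rcases Finset.mem_insert.1 h with h | h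
        · rw [h]
          exact Or.inr ⟨a.1, ha1, hyP⟩
        · exact Or.inl h
      · exact Or.inr h
    · intro a' ha'
      rcases List.mem_cons.1 ha' with h | h
      · rw [h]
        exact ⟨y, e3 (Finset.mem_insert_self _ _), by omega, hyP, hyC⟩
      · obtain ⟨z, z1, z2, z3, z4⟩ := e5 a' h
        refine ⟨z, z1, z2, z3, fun ξ hξ => ?_⟩
        rw [← hq.2.2.1 b ξ ((h4 a' (by simp [h])).2 ξ hξ).1]
        exact z4 ξ hξ

end Main54

theorem taskMain {W : Type} [LinearOrder W] : TaskGrow W → TaskLimit W → TaskPI W → TaskSeq W →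
    TaskNewPoint W → TaskNewCol W → TaskMain W :=
  fun hG hL hPI hS hNP hNC hW b τ p =>
    Main54.main_of hW hG hL hPI hS hNC b τ (Main54.newPts hNP hW b τ) p

end Pool.Agent.H282R3.FP
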