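import Mathlib
import Pool.Agent.H282R3.FP.Stmts

set_option autoImplicit false

/-! TASK NewCol. -/

namespace Pool.Agent.H282R3.FP

open Set

variable {W : Type} [LinearOrder W]

theorem newCol_extend {b : Bool} (τ : Name W b) (hRec : TaskRecord W) (G : Finset ℕ)
    {q : Cond W} {k : ℕ} {σω : ℕ → Set ℕ × Set W} (β : W)
    (h : ∃ r ≤ q, ∃ B, τ.v r β B ∧ (↑G : Set ℕ) ⊆ B ∧ ∃ σ' : ℕ → Set ℕ × Set W,
      ∀ j < k, ColOK b r (σ' j) ∧ (σ' j).1 ⊆ B ∧ Ext q.d (σ' j) (σω j)) :
    ∃ l : ℕ, ∃ r ≤ q, ∃ B, τ.v r β B ∧ (↑G : Set ℕ) ⊆ B ∧ ∃ σ' : ℕ → Set ℕ × Set W,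
      ∀ j < k + 1, ColOK b r (σ' j) ∧ (σ' j).1 ⊆ B ∧
        Ext q.d (σ' j) ((fun j => if j < k then σω j else q.col b l) j) := by
  obtain ⟨r, hr, B, hv, hGB, σ', hσ'⟩ := h
  obtain ⟨r', hr', N, hN⟩ := τ.mem r β B hv
  obtain ⟨N', hN'⟩ := (Cond.le_def.1 (hr'.trans hr)).2.2.2.2.2 b 0
  obtain ⟨l, -, hl⟩ := hN' (max N N') (le_max_right _ _)
  have hfin := hN (max N N') (le_max_left _ _)
  set m := max N N' with hm
  obtain ⟨r'', hr'', hd, hC, hs, hY⟩ := hRec r' b (r'.A b m ∩ B)
  refine ⟨l, r'', (hr''.trans hr').trans hr, B, τ.mono _ _ _ _ (hr''.trans hr') hv, hGB,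
    fun j => if j < k then σ' j else (r'.A b m ∩ B, r'.E b m), fun j hj => ?_⟩
  by_cases hjk : j < k
  · simp only [hjk, if_true]
    obtain ⟨h1, h2, h3⟩ := hσ' j hjk
    exact ⟨(h1.carry (hr''.trans hr')).1, h2, h3⟩
  · simp only [hjk, if_false]
    refine ⟨⟨hY, ?_, ?_, ?_⟩, inter_subset_right, ?_, ?_⟩
    · rw [hd]; exact r'.hE b m
    · rw [hs]; exact r'.hs b m
    · intro t ht
      have h1 := r'.hw b m t (fun x hx => by rw [← hd]; exact ht x hx)
      have h2 : (r'.A b m ∩ ⋂ x ∈ t, r'.C b x) ⊆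
          (r'.A b m ∩ B ∩ ⋂ x ∈ t, r''.C b x) ∪ (r'.A b m \ B) := by
        rintro y ⟨hy1, hy2⟩
        by_cases hyB : y ∈ B
        · left
          refine ⟨⟨hy1, hyB⟩, ?_⟩
          simp only [hC]
          exact hy2
        · exact Or.inr ⟨hy1, hyB⟩
      intro hcon
      exact h1 ((hcon.union hfin).subset h2)
    · refine hl.1.subset ?_
      rintro y ⟨hy1, hy2⟩
      exact ⟨hy1.1, hy2⟩
    · exact hl.2

theorem taskNewCol : TaskGrow W → TaskLimit W → TaskPI W → TaskSeq W → TaskRecord W →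
    TaskNewCol W := by
  intro hGrow hLim hPI hSeq hRec hW b τ p k σ G hσ hV n₀
  by_contra hno
  push Not at hno
  obtain ⟨x, hx0, hInv, -, hFus⟩ := hSeq (Cond W × (ℕ → Set ℕ × Set W)) Prod.fst Prod.snd b k
    (fun i x => x.1 ≤ p ∧ (∀ j < k, Ext p.d (x.2 j) (σ j)) ∧ ∀ l < i,
      ¬ Good τ x.1 (k + 1) (fun j => if j < k then x.2 j else x.2 (k + l)) G)
    (fun _ _ _ => True) (p, σ)
    ⟨le_rfl, fun j hj => ((hσ j hj).carry le_rfl).2, fun l hl => absurd hl (Nat.not_lt_zero l)⟩
    hσ (by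
      rintro i ⟨q, ς⟩ n₁ ⟨hqp, hext, hnot⟩ hok
      simp only at hqp hext hnot hok ⊢
      obtain ⟨N, hN⟩ := (Cond.le_def.1 hqp).2.2.2.2.2 b n₀
      obtain ⟨n', hn', hn2⟩ := hN (max N n₁) (le_max_left _ _)
      have h1 := hno q hqp ς (fun j hj => ⟨hok j (by omega), hext j hj⟩) (max N n₁) ⟨n', hn', hn2⟩
      unfold VeryGood at h1
      push Not at h1
      obtain ⟨q', hq', σ'', hσ'', hng⟩ := h1
      obtain ⟨q'', hq'', hd''⟩ := hGrow hW q'
      have hk : ColOK b q' (σ'' k) ∧ Ext q.d (σ'' k) (q.col b (max N n₁)) := by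
        have := hσ'' k (by omega)
        simpa using this
      have hjk : ∀ j < k, ColOK b q' (σ'' j) ∧ Ext q.d (σ'' j) (ς j) := by
        intro j hj
        have := hσ'' j (by omega)
        simpa [hj] using this
      refine ⟨(q'', fun j => if j < k then σ'' j else if j = k + i then σ'' k else ς j), ?_⟩
      simp only
      refine ⟨hq''.trans hq', (Cond.le_def.1 hq').1.trans_lt hd'', ?_, ?_, ?_, ⟨?_, ?_, ?_⟩,
        trivial⟩
      · intro j hj
        by_cases h : j < k
        · simp only [h, if_true]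
          exact ⟨((hjk j h).1.carry hq'').1, (hjk j h).2⟩
        · have h2 : j ≠ k + i := by omega
          simp only [h, h2, if_false]
          exact (hok j hj).carry (hq''.trans hq')
      · have h : ¬ (k + i < k) := by omega
        simp only [h, if_false, if_true]
        exact (hk.1.carry hq'').1
      · refine ⟨max N n₁, le_max_right _ _, ?_⟩
        have h : ¬ (k + i < k) := by omega
        simp only [h, if_false, if_true]
        exact hk.2
      · exact (hq''.trans hq').trans hqp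
      · intro j hj
        simp only [hj, if_true]
        exact (hjk j hj).2.trans (Cond.le_def.1 hqp).1 (hext j hj)
      · intro l hl hgood
        rcases Nat.lt_succ_iff_lt_or_eq.1 hl with h | h
        · refine hnot l h (hgood.weaken (hq''.trans hq') le_rfl subset_rfl ?_)
          intro j hj
          by_cases hjk' : j < k
          · simp only [hjk', if_true]
            exact (hjk j hjk').2
          · have h1 : ¬ (k + l < k) := by omega
            have h2 : k + l ≠ k + i := by omega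
            simp only [hjk', h1, h2, if_false]
            exact ((hok (k + l) (by omega)).carry le_rfl).2
        · subst h
          refine hng (hgood.weaken hq'' le_rfl subset_rfl ?_)
          intro j hj
          by_cases hjk' : j < k
          · simp only [hjk', if_true]
            exact ((hjk j hjk').1.carry le_rfl).2
          · have h1 : ¬ (k + l < k) := by omega
            have h2 : j = k := by omega
            simp only [hjk', h1, if_false, if_true]
            rw [h2]
            exact (hk.1.carry le_rfl).2)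
  have hPIhyp : ∀ i, ∀ j < k + i, ∀ t : Finset W,
      (∀ y ∈ t, y < (x i).1.d ∧ y ∉ ((x i).2 j).2) →
      (univ ∩ ((x i).2 j).1 ∩ ⋂ y ∈ t, (x i).1.C b y).Infinite := by
    intro i j hj t ht
    rw [univ_inter]
    exact (hFus.ok i j hj).2.2.2 t ht
  obtain ⟨X, -, hX1, hX2⟩ := hPI hW b k _ _ hFus univ hPIhyp
  obtain ⟨q, hq, σω, hσω1, hσω2, hσω3, hσω4⟩ := hLim hW b k _ _ hFus X hX1 hX2
  have hqp : q ≤ p := by
    have := hq 0
    simp only [hx0] at this
    exact this
  have hgoodq : Good τ q k σω G := by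
    refine hV q hqp σω fun j hj => ⟨hσω2 j, ?_⟩
    have := hσω3 0 j (by omega)
    simp only [hx0] at this
    exact this
  apply hgoodq
  have hl : ∀ l : ℕ, {β : W | ∃ r ≤ q, ∃ B, τ.v r β B ∧ (↑G : Set ℕ) ⊆ B ∧
      ∃ σ' : ℕ → Set ℕ × Set W, ∀ j < k + 1, ColOK b r (σ' j) ∧ (σ' j).1 ⊆ B ∧
        Ext q.d (σ' j) ((fun j => if j < k then σω j else q.col b l) j)}.Countable := by
    intro l
    by_contra hc
    have hg : Good τ q (k + 1) (fun j => if j < k then σω j else q.col b l) G := hc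
    refine (hInv (l + 1)).2.2 l (by omega) (hg.weaken (hq (l + 1)) le_rfl subset_rfl ?_)
    intro j hj
    by_cases hjk : j < k
    · simp only [hjk, if_true]
      exact hσω3 (l + 1) j (by omega)
    · simp only [hjk, if_false]
      rw [hσω4 l]
      exact hσω3 (l + 1) (k + l) (by omega)
  refine (countable_iUnion hl).mono ?_
  intro β hβ
  obtain ⟨l, hl2⟩ := newCol_extend τ hRec G β hβ
  exact mem_iUnion.2 ⟨l, hl2⟩

end Pool.Agent.H282R3.FP
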