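import Pool.Agent.H282R3.FP.Stmts

set_option autoImplicit false

namespace Pool.Agent.H282R3.FP

open Set

theorem taskNewPoint {W : Type} [LinearOrder W] :
    TaskGrow W → TaskLimit W → TaskPI W → TaskSeq W → TaskNewPoint W := by
  intro hGrow hLimit hPI hSeq hW b τ p k σ G hok hvg j₀ hj₀ t ht m
  by_contra hneg
  -- the points in question
  set P : ℕ → Prop := fun x => m ≤ x ∧ x ∈ (σ j₀).1 ∧ ∀ ξ ∈ t, x ∈ p.C b ξ with hP
  have hstep : ∀ q ≤ p, ∀ σ' : ℕ → Set ℕ × Set W,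
      (∀ j < k, ColOK b q (σ' j) ∧ Ext p.d (σ' j) (σ j)) → ∀ x, P x →
      ∃ q' ≤ q, ∃ σ'' : ℕ → Set ℕ × Set W,
        (∀ j < k, ColOK b q' (σ'' j) ∧ Ext q.d (σ'' j) (σ' j)) ∧
        ¬ Good τ q' k σ'' (insert x G) := by
    intro q hq σ' hσ' x hx
    by_contra hcon
    apply hneg
    refine ⟨q, hq, σ', hσ', x, hx.1, hx.2.1, hx.2.2, ?_⟩
    intro q' hq' σ'' hσ''
    by_contra hg
    exact hcon ⟨q', hq', σ'', hσ'', hg⟩
  -- the sequence
  obtain ⟨x, hx0, hInv, -, hF⟩ := hSeq (Cond W × (ℕ → Set ℕ × Set W)) Prod.fst Prod.snd b k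
    (fun i y => y.1 ≤ p ∧ (∀ j < k, Ext p.d (y.2 j) (σ j)) ∧
      ∀ x < i, P x → ¬ Good τ y.1 k y.2 (insert x G)) (fun _ _ _ => True) (p, σ)
    ⟨le_rfl, fun j hj => ((hok j hj).carry le_rfl).2, fun x hx => absurd hx (Nat.not_lt_zero x)⟩
    (fun j hj => hok j hj)
    (by
      rintro i ⟨q, σ'⟩ n₀ ⟨hqp, hext, hng⟩ hcol
      simp only at hqp hext hng hcol
      obtain ⟨q1, hq1, s1, hs1, hg1⟩ : ∃ q1 ≤ q, ∃ s1 : ℕ → Set ℕ × Set W,
          (∀ j < k, ColOK b q1 (s1 j) ∧ Ext q.d (s1 j) (σ' j)) ∧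
          (P i → ¬ Good τ q1 k s1 (insert i G)) := by
        by_cases hPi : P i
        · obtain ⟨q', hq', σ'', h1, h2⟩ := hstep q hqp σ'
            (fun j hj => ⟨hcol j (by omega), hext j hj⟩) i hPi
          exact ⟨q', hq', σ'', h1, fun _ => h2⟩
        · exact ⟨q, le_rfl, σ', fun j hj => ⟨hcol j (by omega),
            ((hcol j (by omega)).carry le_rfl).2⟩, fun h => absurd h hPi⟩
      obtain ⟨q2, hq2, hd2⟩ := hGrow hW q1
      have hq2q : q2 ≤ q := hq2.trans hq1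
      set s2 : ℕ → Set ℕ × Set W := fun j => if j < k then s1 j else
        if j < k + i then σ' j else q.col b n₀ with hs2
      have hs2k : ∀ j < k, s2 j = s1 j := fun j hj => by simp [hs2, hj]
      have hs2i : ∀ j, k ≤ j → j < k + i → s2 j = σ' j := fun j hj hj' => by
        simp [hs2, not_lt.2 hj, hj']
      have hs2n : s2 (k + i) = q.col b n₀ := by simp [hs2]
      refine ⟨(q2, s2), hq2q, lt_of_le_of_lt hq1.1 hd2, ?_, ?_, ?_, ⟨hq2q.trans hqp, ?_, ?_⟩,
        trivial⟩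
      · intro j hj
        simp only
        by_cases hjk : j < k
        · rw [hs2k j hjk]
          exact ⟨((hs1 j hjk).1.carry hq2).1, (hs1 j hjk).2⟩
        · rw [hs2i j (not_lt.1 hjk) hj]
          exact (hcol j hj).carry hq2q
      · simp only
        rw [hs2n]
        exact ((q.colOK b n₀).carry hq2q).1
      · refine ⟨n₀, le_rfl, ?_⟩
        simp only
        rw [hs2n]
        exact ((q.colOK b n₀).carry hq2q).2
      · intro j hj
        simp only
        rw [hs2k j hj]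
        exact (hs1 j hj).2.trans hqp.1 (hext j hj)
      · intro x hx hPx hgood
        simp only at hgood
        rcases Nat.lt_succ_iff_lt_or_eq.1 hx with hlt | heq
        · refine hng x hlt hPx (hgood.weaken hq2q le_rfl (Finset.Subset.refl _) ?_)
          intro j hj
          rw [hs2k j hj]
          exact (hs1 j hj).2
        · subst heq
          refine hg1 hPx (hgood.weaken hq2 le_rfl (Finset.Subset.refl _) ?_)
          intro j hj
          rw [hs2k j hj]
          exact ((hs1 j hj).1.carry le_rfl).2)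
  -- the pseudo-intersections and the limit
  obtain ⟨X, -, hX1, hX2⟩ := hPI hW b k (fun i => (x i).1) (fun i => (x i).2) hF univ (by
    intro i j hj t' ht'
    rw [univ_inter]
    exact (hF.ok i j hj).2.2.2 t' ht')
  obtain ⟨q, hq, σω, -, hω2, hω3, -⟩ := hLimit hW b k (fun i => (x i).1) (fun i => (x i).2) hF X
    hX1 hX2
  have hqp : q ≤ p := by
    have h := hq 0
    simp only [hx0] at h
    exact h
  have hext : ∀ j < k, Ext p.d (σω j) (σ j) := by
    intro j hj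
    have h := hω3 0 j (by omega)
    simp only [hx0] at h
    exact h
  have hbad : ∀ y, P y → ¬ Good τ q k σω (insert y G) := by
    intro y hy hgood
    refine (hInv (y + 1)).2.2 y (Nat.lt_succ_self y) hy
      (hgood.weaken (hq (y + 1)) le_rfl (Finset.Subset.refl _) ?_)
    intro j hj
    exact hω3 (y + 1) j (by omega)
  have hgood : Good τ q k σω G := hvg q hqp σω fun j hj => ⟨hω2 j, hext j hj⟩
  apply hgood
  have hcount : (⋃ y ∈ {y | P y}, {β : W | ∃ r ≤ q, ∃ B, τ.v r β B ∧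
      (↑(insert y G : Finset ℕ) : Set ℕ) ⊆ B ∧ ∃ σ' : ℕ → Set ℕ × Set W,
      ∀ j < k, ColOK b r (σ' j) ∧ (σ' j).1 ⊆ B ∧ Ext q.d (σ' j) (σω j)}).Countable := by
    refine Set.Countable.biUnion (Set.to_countable _) ?_
    intro y hy
    by_contra hcon
    exact hbad y hy hcon
  refine hcount.mono ?_
  rintro β ⟨r, hr, B, hB1, hB2, σ', hσ'⟩
  have hrp : r ≤ p := hr.trans hqp
  obtain ⟨hc1, hc2, hc3⟩ := hσ' j₀ hj₀
  have hext' : Ext p.d (σ' j₀) (σ j₀) := hc3.trans hqp.1 (hext j₀ hj₀)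
  have hinf := hc1.2.2.2 t (by
    intro ξ hξ
    refine ⟨(ht ξ hξ).1.trans_le hrp.1, ?_⟩
    intro hmem
    apply (ht ξ hξ).2
    rw [← hext'.2]
    exact ⟨hmem, (ht ξ hξ).1⟩)
  have hinf2 : (((σ' j₀).1 ∩ ⋂ ξ ∈ t, r.C b ξ) \ ((σ' j₀).1 \ (σ j₀).1)).Infinite :=
    hinf.sdiff hext'.1
  obtain ⟨y, hy, hym⟩ := hinf2.exists_gt m
  have hPy : P y := by
    refine ⟨hym.le, ?_, ?_⟩
    · by_contra hcon
      exact hy.2 ⟨hy.1.1, hcon⟩
    · intro ξ hξ
      have h1 : y ∈ r.C b ξ := by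
        have := hy.1.2
        simp only [mem_iInter] at this
        exact this ξ hξ
      rw [← hrp.2.2.1 b ξ (ht ξ hξ).1]
      exact h1
  refine Set.mem_biUnion (show y ∈ {y | P y} from hPy) ?_
  refine ⟨r, hr, B, hB1, ?_, σ', hσ'⟩
  rw [Finset.coe_insert]
  exact Set.insert_subset (hc2 hy.1.1) hB2

end Pool.Agent.H282R3.FP
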