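import Pool.Agent.H282R3.FP.Stmts

/-! Task Orth (helper449). -/

set_option autoImplicit false

namespace Pool.Agent.H282R3.FP

open Set

theorem exists_isLim {W : Type} [LinearOrder W] [WellFoundedLT W] {I : Set W} {d : W}
    (hI : I.Infinite) (hd : I ⊆ Iio d) : ∃ l, IsLim I l := by
  have hne : {l : W | (I ∩ Iio l).Infinite}.Nonempty :=
    ⟨d, by show (I ∩ Iio d).Infinite; rwa [inter_eq_left.2 hd]⟩
  obtain ⟨l, hl, hmin⟩ := WellFounded.has_min (wellFounded_lt (α := W)) _ hne
  have hl' : (I ∩ Iio l).Infinite := hl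
  refine ⟨l, ?_, ?_⟩
  · obtain ⟨x, hx⟩ := hl'.nonempty
    exact ⟨x, hx.2⟩
  · intro g hg
    have hfin : (I ∩ Iio g).Finite := by
      by_contra h
      exact hmin g h hg
    have hfin2 : ((I ∩ Iio g) ∪ {g}).Finite := hfin.union (finite_singleton g)
    obtain ⟨x, hx, hx2⟩ := (hl'.diff hfin2).nonempty
    refine ⟨x, hx.1, ?_, hx.2⟩
    rcases lt_trichotomy x g with h | h | h
    · exact absurd (Or.inl ⟨hx.1, h⟩) hx2
    · exact absurd (Or.inr h) hx2
    · exact h

theorem IsLim.mono {W : Type} [LinearOrder W] {I E : Set W} {l : W} (h : IsLim I l)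
    (hIE : I ⊆ E) : IsLim E l :=
  ⟨h.1, fun g hg => by
    obtain ⟨x, hx, h1⟩ := h.2 g hg
    exact ⟨x, hIE hx, h1⟩⟩

theorem taskOrth {W : Type} [LinearOrder W] : TaskOrth W := by
  intro hW p I hI hId hB
  haveI := hW.wf
  obtain ⟨l, hl⟩ := exists_isLim hI hId
  have key : ∀ b, p.s l = b := by
    intro b
    obtain ⟨B, ⟨N, hN⟩, hdis⟩ := hB b
    have hsub : I ⊆ p.E b N := by
      intro ξ hξ
      by_contra hcon
      have hinf := p.hw b N {ξ} (fun x hx => by
        rw [Finset.mem_singleton] at hx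
        subst hx
        exact ⟨hId hξ, hcon⟩)
      apply hinf
      refine (hN N le_rfl).subset ?_
      rintro x ⟨hx1, hx2⟩
      refine ⟨hx1, fun hxB => ?_⟩
      rw [mem_iInter₂] at hx2
      exact Set.disjoint_left.1 (hdis ξ hξ) hxB (hx2 ξ (Finset.mem_singleton_self ξ))
    exact p.hs b N l (hl.mono hsub)
  have h1 := key true
  have h2 := key false
  rw [h1] at h2
  exact absurd h2 (by decide)

end Pool.Agent.H282R3.FP
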