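import Pool.Agent.H282R3.FP.Stmts

/-!
# Task PI of project H282FP: pseudo-intersections inside a given set
-/

set_option autoImplicit false

namespace Pool.Agent.H282R3.FP.PI

open Set

variable {W : Type} [LinearOrder W]

theorem fus_le {b : Bool} {k : ℕ} {p : ℕ → Cond W} {σ : ℕ → ℕ → Set ℕ × Set W}
    (h : Fus b k p σ) {i i' : ℕ} (hi : i ≤ i') : p i' ≤ p i :=
  antitone_nat_of_succ_le h.le hi

theorem fus_ext {b : Bool} {k : ℕ} {p : ℕ → Cond W} {σ : ℕ → ℕ → Set ℕ × Set W}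
    (h : Fus b k p σ) {i i' j : ℕ} (hi : i ≤ i') (hj : j < k + i) :
    Ext (p i).d (σ i' j) (σ i j) := by
  induction i', hi using Nat.le_induction with
  | base => exact ((h.ok i j hj).carry le_rfl).2
  | succ n hn ih => exact Ext.trans (fus_le h hn).1 (h.ext n j (by omega)) ih

theorem countable_finset {s : Set W} (hs : s.Countable) :
    {t : Finset W | (↑t : Set W) ⊆ s}.Countable := by
  refine ((countable_setOf_finite_subset hs).preimage_of_injOn
    (f := fun t : Finset W => (↑t : Set W)) (Finset.coe_injective.injOn)).mono ?_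
  intro t ht
  exact ⟨t.finite_toSet, ht⟩

theorem key (hW : OmegaOneLike W) {b : Bool} {k : ℕ} {p : ℕ → Cond W}
    {σ : ℕ → ℕ → Set ℕ × Set W} (hF : Fus b k p σ) {G : Set ℕ} (j : ℕ)
    (hG : ∀ i, j < k + i → ∀ t : Finset W, (∀ x ∈ t, x < (p i).d ∧ x ∉ (σ i j).2) →
      (G ∩ (σ i j).1 ∩ ⋂ x ∈ t, (p i).C b x).Infinite) :
    ∃ X : Set ℕ, X ⊆ G ∧ (∀ i, j < k + i → (X \ (σ i j).1).Finite) ∧
      (∀ i, j < k + i → ∀ t : Finset W, (∀ x ∈ t, x < (p i).d ∧ x ∉ (σ i j).2) →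
        (X ∩ ⋂ x ∈ t, (p i).C b x).Infinite) := by
  classical
  let P : Set (ℕ × Finset W × ℕ) :=
    {q | j < k + q.1 ∧ ∀ x ∈ q.2.1, x < (p q.1).d ∧ x ∉ (σ q.1 j).2}
  have hPc : P.Countable := by
    have hsub : P ⊆ ⋃ i : ℕ, ({i} : Set ℕ) ×ˢ
        ({t : Finset W | (↑t : Set W) ⊆ Iio (p i).d} ×ˢ (univ : Set ℕ)) := by
      rintro ⟨i, t, l⟩ ⟨_, h2⟩
      refine mem_iUnion.2 ⟨i, ?_⟩
      refine ⟨rfl, ?_, mem_univ _⟩
      intro x hx
      exact (h2 x (by simpa using hx)).1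
    refine (countable_iUnion fun i => ?_).mono hsub
    exact (countable_singleton i).prod
      ((countable_finset (hW.countable (p i).d)).prod countable_univ)
  have hPne : P.Nonempty := ⟨(j + 1, ∅, 0), by
    refine ⟨?_, ?_⟩
    · show j < k + (j + 1)
      omega
    · simp⟩
  obtain ⟨e, he⟩ := hPc.exists_eq_range hPne
  have hch : ∀ n, ∃ y, y ∈ G ∧ (e n).2.2 ≤ y ∧
      (∀ i', j < k + i' → i' ≤ max (e n).1 n → y ∈ (σ i' j).1) ∧
      (∀ x ∈ (e n).2.1, y ∈ (p (e n).1).C b x) := by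
    intro n
    have hen : e n ∈ P := by rw [he]; exact mem_range_self n
    obtain ⟨h1, h2⟩ := hen
    set c := max (e n).1 n with hc
    have hic : (e n).1 ≤ c := le_max_left _ _
    have hjc : j < k + c := by omega
    have ht : ∀ x ∈ (e n).2.1, x < (p c).d ∧ x ∉ (σ c j).2 := by
      intro x hx
      obtain ⟨h3, h4⟩ := h2 x hx
      refine ⟨h3.trans_le (fus_le hF hic).1, fun h5 => h4 ?_⟩
      rw [← (fus_ext hF hic h1).2]
      exact ⟨h5, h3⟩
    have hinf := hG c hjc _ ht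
    have hfin : ((⋃ i' ∈ {i' : ℕ | i' ≤ c ∧ j < k + i'}, (σ c j).1 \ (σ i' j).1) ∪
        Iio (e n).2.2).Finite := by
      refine Finite.union (Finite.biUnion ?_ ?_) (finite_Iio _)
      · exact (finite_Iic c).subset fun i' hi' => hi'.1
      · intro i' hi'
        exact (fus_ext hF hi'.1 hi'.2).1
    obtain ⟨y, hy, hy'⟩ := (hinf.diff hfin).nonempty
    obtain ⟨⟨hyG, hyσ⟩, hyC⟩ := hy
    refine ⟨y, hyG, ?_, ?_, ?_⟩
    · by_contra hcon
      push Not at hcon
      exact hy' (Or.inr hcon)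
    · intro i' hi' hle
      by_contra hcon
      exact hy' (Or.inl (mem_biUnion (show i' ∈ {i' : ℕ | i' ≤ c ∧ j < k + i'} from ⟨hle, hi'⟩)
        ⟨hyσ, hcon⟩))
    · intro x hx
      have := mem_iInter₂.1 hyC x hx
      rwa [(fus_le hF hic).2.2.1 b x (h2 x hx).1] at this
  choose y hy1 hy2 hy3 hy4 using hch
  refine ⟨range y, ?_, ?_, ?_⟩
  · rintro _ ⟨n, rfl⟩
    exact hy1 n
  · intro i hi
    refine ((finite_Iio i).image y).subset ?_
    rintro _ ⟨⟨n, rfl⟩, hn⟩
    refine ⟨n, ?_, rfl⟩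
    by_contra hcon
    exact hn (hy3 n i hi ((not_lt.1 hcon).trans (le_max_right _ _)))
  · intro i hi t ht
    refine Set.infinite_of_forall_exists_gt fun l => ?_
    have hmem : ((i, t, l + 1) : ℕ × Finset W × ℕ) ∈ P := ⟨hi, ht⟩
    rw [he] at hmem
    obtain ⟨n, hn⟩ := hmem
    refine ⟨y n, ⟨mem_range_self n, ?_⟩, ?_⟩
    · refine mem_iInter₂.2 fun x hx => ?_
      have := hy4 n x (by rw [hn]; exact hx)
      rw [hn] at this
      exact this
    · have := hy2 n
      rw [hn] at this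
      exact Nat.lt_of_succ_le this

end Pool.Agent.H282R3.FP.PI

namespace Pool.Agent.H282R3.FP

open Set

variable (W : Type) [LinearOrder W]

theorem taskPI : TaskPI W := by
  intro hW b k p σ hF G hG
  choose X h1 h2 h3 using fun j => PI.key hW hF (G := G) j fun i hi => hG i j hi
  exact ⟨X, h1, fun i j hj => h2 j i hj, fun i j hj => h3 j i hj⟩

end Pool.Agent.H282R3.FP
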