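import Pool.Agent.H282R3.FP.Stmts

/-!
Task FP-Main1 (helper444): finitely many new points.
-/

set_option autoImplicit false

namespace Pool.Agent.H282R3.FP.PtsH444

open Set Pool.Agent.H282R3.FP

variable {W : Type} [LinearOrder W]

theorem newPoints (hNP : TaskNewPoint W) (hW : OmegaOneLike W) (b : Bool) (τ : Name W b) (k : ℕ)
    (P : ℕ → Set ℕ) (m : ℕ) (L : List (ℕ × Finset W)) (p : Cond W) (σ : ℕ → Set ℕ × Set W)
    (G : Finset ℕ) (h1 : ∀ j < k, ColOK b p (σ j)) (h2 : VeryGood τ p k σ G)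
    (h3 : ∀ j < k, ((σ j).1 \ P j).Finite)
    (h4 : ∀ a ∈ L, a.1 < k ∧ ∀ x ∈ a.2, x < p.d ∧ x ∉ (σ a.1).2) :
    ∃ q ≤ p, ∃ σ' : ℕ → Set ℕ × Set W, ∃ G' : Finset ℕ,
      (∀ j < k, ColOK b q (σ' j) ∧ Ext p.d (σ' j) (σ j)) ∧ VeryGood τ q k σ' G' ∧ G ⊆ G' ∧
      (∀ x ∈ G', x ∈ G ∨ ∃ j < k, x ∈ P j) ∧
      ∀ a ∈ L, ∃ x ∈ G', m ≤ x ∧ x ∈ P a.1 ∧ ∀ ξ ∈ a.2, x ∈ p.C b ξ := by
  induction L generalizing p σ G with
  | nil =>
    exact ⟨p, le_rfl, σ, G, fun j hj => ⟨h1 j hj, ((h1 j hj).carry le_rfl).2⟩, h2,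
      Finset.Subset.refl _, fun x hx => Or.inl hx, fun a ha => absurd ha List.not_mem_nil⟩
  | cons a L ih =>
    obtain ⟨ha, hat⟩ := h4 a List.mem_cons_self
    obtain ⟨M, hM⟩ := (h3 a.1 ha).bddAbove
    obtain ⟨q1, hq1, σ1, hσ1, x, hx, hxσ, hxC, hVG⟩ :=
      hNP hW b τ p k σ G h1 h2 a.1 ha a.2 hat (max m (M + 1))
    have hxP : x ∈ P a.1 := by
      by_contra hcon
      have := hM ⟨hxσ, hcon⟩
      have h5 := le_max_right m (M + 1)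
      omega
    have hxm : m ≤ x := (le_max_left m (M + 1)).trans hx
    have hd : p.d ≤ q1.d := hq1.1
    have h3' : ∀ j < k, ((σ1 j).1 \ P j).Finite := by
      intro j hj
      refine ((hσ1 j hj).2.1.union (h3 j hj)).subset ?_
      intro y hy
      by_cases hyσ : y ∈ (σ j).1
      · exact Or.inr ⟨hyσ, hy.2⟩
      · exact Or.inl ⟨hy.1, hyσ⟩
    have h4' : ∀ a ∈ L, a.1 < k ∧ ∀ x ∈ a.2, x < q1.d ∧ x ∉ (σ1 a.1).2 := by
      intro a' ha'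
      obtain ⟨g1, g2⟩ := h4 a' (List.mem_cons_of_mem _ ha')
      refine ⟨g1, fun y hy => ⟨(g2 y hy).1.trans_le hd, fun hcon => (g2 y hy).2 ?_⟩⟩
      rw [← (hσ1 a'.1 g1).2.2]
      exact ⟨hcon, (g2 y hy).1⟩
    obtain ⟨q2, hq2, σ2, G2, e1, e2, e3, e4, e5⟩ := ih q1 σ1 (insert x G)
      (fun j hj => (hσ1 j hj).1) hVG h3' h4'
    refine ⟨q2, hq2.trans hq1, σ2, G2, fun j hj => ⟨(e1 j hj).1, (e1 j hj).2.trans hd (hσ1 j hj).2⟩,
      e2, (Finset.subset_insert x G).trans e3, ?_, ?_⟩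
    · intro y hy
      rcases e4 y hy with h | h
      · rcases Finset.mem_insert.mp h with rfl | h
        · exact Or.inr ⟨a.1, ha, hxP⟩
        · exact Or.inl h
      · exact Or.inr h
    · intro a' ha'
      rcases List.mem_cons.mp ha' with rfl | ha''
      · exact ⟨x, e3 (Finset.mem_insert_self x G), hxm, hxP, hxC⟩
      · obtain ⟨y, hy, hym, hyP, hyC⟩ := e5 a' ha''
        refine ⟨y, hy, hym, hyP, fun ξ hξ => ?_⟩
        have h6 := hyC ξ hξ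
        rw [hq1.2.2.1 b ξ ((h4 a' ha').2 ξ hξ).1] at h6
        exact h6

end Pool.Agent.H282R3.FP.PtsH444
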