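import Pool.Agent.H282R3.FP.Stmts

set_option autoImplicit false

namespace Pool.Agent.H282R3.FP

open Set

theorem taskInit (W : Type) [LinearOrder W] : TaskInit W := by
  intro hW
  obtain ⟨w0, -⟩ := hW.bdd ∅ countable_empty
  have hwf := hW.wf
  obtain ⟨d, -, hd⟩ := hwf.wf.has_min (univ : Set W) ⟨w0, mem_univ _⟩
  have hd' : ∀ x : W, ¬ x < d := fun x => hd x (mem_univ x)
  exact ⟨{ d := d
           s := fun _ => false
           C := fun _ _ => ∅
           Y := fun _ => {univ}
           A := fun _ _ => univ
           E := fun _ _ => ∅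
           hY := fun _ => countable_singleton _
           hA := fun _ _ => mem_singleton _
           hE := fun _ _ => empty_subset _
           hs := fun _ _ l hl => by
             obtain ⟨⟨g, hg⟩, h⟩ := hl
             obtain ⟨x, hx, -⟩ := h g hg
             exact absurd hx (notMem_empty x)
           hw := fun _ _ t ht => by
             have h0 : t = ∅ := by
               rw [Finset.eq_empty_iff_forall_notMem]
               intro x hx
               exact hd' x (ht x hx).1
             subst h0
             simpa using (infinite_univ : (univ : Set ℕ).Infinite)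
           hC := fun _ x hx => absurd hx (hd' x) }⟩

theorem taskRecord (W : Type) [LinearOrder W] : TaskRecord W := by
  intro p b S
  refine ⟨{ p with
            Y := fun b' => p.Y b' ∪ {A | A = S ∧ b' = b}
            hY := fun b' => (p.hY b').union ((countable_singleton S).mono fun A hA => hA.1)
            hA := fun b' n => Or.inl (p.hA b' n) }, ?_, rfl, fun _ _ => rfl, rfl, Or.inr ⟨rfl, rfl⟩⟩
  refine ⟨le_rfl, fun _ _ => rfl, fun _ _ _ => rfl, fun _ => subset_union_left,
    fun _ _ _ _ h => h, fun b' k => ⟨k, fun m hm => ⟨m, hm, ?_, ?_⟩⟩⟩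
  · simp [Cond.col]
  · exact inter_eq_left.2 (p.hE b' m)

theorem taskOm : TaskOm := by
  have hcount : ∀ w : (Cardinal.aleph.{0} 1).ord.ToType, (Iio w).Countable := by
    intro w
    have h := Cardinal.mk_Iio_toType_ord_lt w
    exact (Cardinal.countable_iff_lt_aleph_one _).2 h
  refine ⟨inferInstance, hcount, ?_⟩
  intro S hS
  by_contra hcon
  push Not at hcon
  have h1 : (univ : Set (Cardinal.aleph.{0} 1).ord.ToType) ⊆ ⋃ x ∈ S, insert x (Iio x) := by
    intro w _
    obtain ⟨x, hx, hwx⟩ := hcon w
    refine mem_biUnion hx ?_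
    rcases hwx.eq_or_lt with h | h
    · exact Or.inl h
    · exact Or.inr h
  have h2 : (univ : Set (Cardinal.aleph.{0} 1).ord.ToType).Countable :=
    (hS.biUnion fun x _ => (hcount x).insert x).mono h1
  have h3 : Cardinal.mk (Cardinal.aleph.{0} 1).ord.ToType ≤ Cardinal.aleph0 := by
    rw [← Cardinal.mk_univ]
    exact Cardinal.le_aleph0_iff_set_countable.2 h2
  rw [Cardinal.mk_toType, Cardinal.card_ord] at h3
  exact absurd h3 (not_le.2 Cardinal.aleph0_lt_aleph_one)

end Pool.Agent.H282R3.FP
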